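import Pool.Agent.Lib_helper38.G4.BB
import Pool.Agent.Lib_helper38.G4.DB
import Pool.Agent.Lib_helper44.G4.Defs
import Pool.Agent.Lib_helper50.G4.DEC
import Pool.Agent.Lib_helper60.G4.MSW
import Pool.Agent.Lib_helper76.G4.MSF
import Pool.Agent.Lib_helper82.G4.SMD
import Pool.Agent.Lib_helper93.G4.CNT

/-! Block APPR: approximation by the Euler product on the line `1/2 + η`. -/

namespace Pool.Agent.G4

open Complex MeasureTheory Filter Topology

variable {m : ℕ}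

theorem appr_mem {N Q : ℕ} {x : Ix} (hx : x ∈ pairs N Q) : x.q.Coprime N ∧ x.2.IsPrimitive := by
  classical
  unfold pairs at hx
  rw [Finset.mem_sigma] at hx
  exact ⟨(Finset.mem_filter.1 hx.1).2, (Finset.mem_filter.1 hx.2).2⟩

theorem appr_card (N Q : ℕ) : ((pairs N Q).card : ℝ) ≤ Q ^ 2 := by
  have h := card_pairs_dvd_pr N Q 1 one_pos
  have h2 : (pairs N Q).filter (fun x => 1 ∣ x.q) = pairs N Q :=
    Finset.filter_true_of_mem fun x _ => one_dvd _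
  rw [h2] at h
  simpa using h

/-- Cauchy-Schwarz with a weight -/
theorem appr_cs {f w : ℝ → ℝ} (hw : ∀ u, 0 < w u) (hwi : Integrable w) (hwp : 0 < ∫ u, w u)
    (h1 : Integrable f) (h2 : Integrable fun u => f u ^ 2 / w u) :
    (∫ u, f u) ^ 2 ≤ (∫ u, w u) * ∫ u, f u ^ 2 / w u := by
  set W := ∫ u, w u with hW
  set J1 := ∫ u, f u with hJ1
  set J2 := ∫ u, f u ^ 2 / w u with hJ2
  have h3 : 0 ≤ ∫ u, (f u - J1 / W * w u) ^ 2 / w u :=
    integral_nonneg fun u => div_nonneg (sq_nonneg _) (hw u).le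
  have h4 : ∫ u, (f u - J1 / W * w u) ^ 2 / w u =
      J2 - 2 * (J1 / W) * J1 + (J1 / W) ^ 2 * W := by
    have e1 : ∀ u : ℝ, (f u - J1 / W * w u) ^ 2 / w u =
        (f u ^ 2 / w u - 2 * (J1 / W) * f u) + (J1 / W) ^ 2 * w u := by
      intro u
      have := (hw u).ne'
      field_simp
      ring
    simp only [e1]
    have i1 : Integrable (fun u => f u ^ 2 / w u - 2 * (J1 / W) * f u) := h2.sub (h1.const_mul _)
    rw [integral_add i1 (hwi.const_mul _), integral_sub h2 (h1.const_mul _), integral_const_mul,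
      integral_const_mul]
  rw [h4] at h3
  have h5 : J2 - 2 * (J1 / W) * J1 + (J1 / W) ^ 2 * W = J2 - J1 ^ 2 / W := by
    field_simp
    ring
  rw [h5] at h3
  have h6 : J1 ^ 2 / W ≤ J2 := by linarith
  rw [div_le_iff₀ hwp] at h6
  linarith

theorem appr_exp_le {η : ℝ} (hη : 0 < η) (hη1 : η ≤ 1) (u : ℝ) :
    Real.exp (-η * |u|) ≤ 2 / η ^ 2 * (1 + u ^ 2)⁻¹ := by
  have h := Real.quadratic_le_exp_of_nonneg (by positivity : 0 ≤ η * |u|)
  have h1 : η ^ 2 * (1 + u ^ 2) ≤ 2 * Real.exp (η * |u|) := by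
    have e1 : (η * |u|) ^ 2 = η ^ 2 * u ^ 2 := by rw [mul_pow, sq_abs]
    have e2 : 0 ≤ η * |u| := by positivity
    have e3 : η ^ 2 ≤ 1 := pow_le_one₀ hη.le hη1
    nlinarith
  have h2 : Real.exp (-η * |u|) = (Real.exp (η * |u|))⁻¹ := by
    rw [← Real.exp_neg]
    congr 1
    ring
  have h3 := Real.exp_pos (η * |u|)
  rw [h2, inv_le_iff_one_le_mul₀ h3]
  have h4 : 0 < 1 + u ^ 2 := by positivity
  have h5 : 2 / η ^ 2 * (1 + u ^ 2)⁻¹ * Real.exp (η * |u|) =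
      (2 * Real.exp (η * |u|)) / (η ^ 2 * (1 + u ^ 2)) := by
    field_simp
  rw [h5, le_div_iff₀ (by positivity), one_mul]
  exact h1

theorem appr_exp_int {η : ℝ} (hη : 0 < η) (hη1 : η ≤ 1) :
    Integrable (fun u : ℝ => Real.exp (-η * |u|)) := by
  refine Integrable.mono' (integrable_inv_one_add_sq.const_mul (2 / η ^ 2))
    (by fun_prop) (ae_of_all _ fun u => ?_)
  rw [Real.norm_eq_abs, abs_of_pos (Real.exp_pos _)]
  exact appr_exp_le hη hη1 u

theorem appr_exp_integral {η : ℝ} (hη : 0 < η) (hη1 : η ≤ 1) :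
    ∫ u : ℝ, Real.exp (-η * |u|) ≤ 2 / η ^ 2 * Real.pi := by
  rw [← integral_univ_inv_one_add_sq, ← integral_const_mul]
  exact integral_mono (appr_exp_int hη hη1) (integrable_inv_one_add_sq.const_mul _)
    (appr_exp_le hη hη1)

theorem appr_exp_integral_pos {η : ℝ} (hη : 0 < η) (hη1 : η ≤ 1) :
    0 < ∫ u : ℝ, Real.exp (-η * |u|) := by
  rw [integral_pos_iff_support_of_nonneg (fun u => (Real.exp_pos _).le) (appr_exp_int hη hη1)]
  have : Function.support (fun u : ℝ => Real.exp (-η * |u|)) = Set.univ := by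
    ext u
    simp [Real.exp_ne_zero]
  rw [this]
  simp

/-- integral of an exponential over a left half line -/
theorem appr_iio {η : ℝ} (hη : 0 < η) (c : ℝ) :
    IntegrableOn (fun u : ℝ => Real.exp (η * u)) (Set.Iio c) ∧
      ∫ u in Set.Iio c, Real.exp (η * u) = Real.exp (η * c) / η := by
  have h1 : IntegrableOn (fun u : ℝ => Real.exp (η * u)) (Set.Iic c) := by
    exact integrableOn_exp_mul_Iic hη c
  refine ⟨h1.mono_set Set.Iio_subset_Iic_self, ?_⟩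
  rw [← integral_Iic_eq_integral_Iio, integral_exp_mul_Iic hη]

theorem appr_ici (c : ℝ) :
    IntegrableOn (fun u : ℝ => Real.exp (-(1 / 4) * u)) (Set.Ici c) ∧
      ∫ u in Set.Ici c, Real.exp (-(1 / 4) * u) = 4 * Real.exp (-(1 / 4) * c) := by
  have h1 : IntegrableOn (fun u : ℝ => Real.exp (-(1 / 4) * u)) (Set.Ioi c) := by
    exact integrableOn_exp_mul_Ioi (by norm_num) c
  refine ⟨by rwa [integrableOn_Ici_iff_integrableOn_Ioi], ?_⟩
  rw [integral_Ici_eq_integral_Ioi, integral_exp_mul_Ioi (by norm_num)]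
  ring

/-- the smooth part -/
noncomputable def appr_sm (S : Sys m) (P : ℕ) (n : ℕ) : ℂ :=
  open Classical in if smo P n then S.a n else 0

/-- the rest -/
noncomputable def appr_ns (S : Sys m) (P : ℕ) (n : ℕ) : ℂ :=
  open Classical in if smo P n then 0 else S.a n

theorem appr_split (S : Sys m) (P n : ℕ) : S.a n = appr_sm S P n + appr_ns S P n := by
  unfold appr_sm appr_ns
  split_ifs <;> simp

theorem appr_sm_norm (S : Sys m) (P n : ℕ) : ‖appr_sm S P n‖ ≤ ‖S.a n‖ := by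
  unfold appr_sm
  split_ifs
  · exact le_rfl
  · simp

theorem appr_ns_norm (S : Sys m) (P n : ℕ) : ‖appr_ns S P n‖ ≤ ‖S.a n‖ := by
  unfold appr_ns
  split_ifs
  · simp
  · exact le_rfl

theorem appr_ns_zero (S : Sys m) {P n : ℕ} (hn : n ≤ P) : appr_ns S P n = 0 := by
  unfold appr_ns
  split_ifs with h
  · rfl
  · rcases Nat.eq_zero_or_pos n with h0 | h0
    · rw [h0, S.a_zero]
    · exact absurd (fun p _ hpn => (Nat.le_of_dvd h0 hpn).trans hn) h

theorem appr_rsb {S : Sys m} {Cb : ℝ} (h : RSB S.a Cb) {b : ℕ → ℂ} (hb : ∀ n, ‖b n‖ ≤ ‖S.a n‖) :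
    RSB b Cb := by
  intro x
  refine (Finset.sum_le_sum fun n _ => ?_).trans (h x)
  exact pow_le_pow_left₀ (norm_nonneg _) (hb n) 2

theorem appr_ev_norm (x : Ix) (n : ℕ) : ‖ev x n‖ ≤ 1 := by
  unfold ev
  exact DirichletCharacter.norm_le_one _ _

theorem appr_summable {κ : ℝ} (hκ : 0 < κ) {K : ℝ → ℂ} (hK : IsKer κ K) {b : ℕ → ℂ} {Cb : ℝ}
    (hb : RSB b Cb) (x : Ix) (u : ℝ) :
    Summable fun n : ℕ => b n * ev x n * (((√(n : ℝ))⁻¹ : ℝ) : ℂ) * K (u + Real.log n) := by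
  refine Summable.of_norm_bounded (db_summable_pr hκ hK hb u) fun n => ?_
  rw [norm_mul, norm_mul, norm_mul, Complex.norm_real, Real.norm_eq_abs,
    abs_of_nonneg (inv_nonneg.2 (Real.sqrt_nonneg _))]
  rcases Nat.eq_zero_or_pos n with h | h
  · subst h
    simp
  · have h1 : (1 : ℝ) ≤ n := by exact_mod_cast h
    have h2 := appr_ev_norm x n
    have h3 : 0 ≤ (√(n : ℝ))⁻¹ := inv_nonneg.2 (Real.sqrt_nonneg _)
    calc ‖b n‖ * ‖ev x n‖ * (√(n : ℝ))⁻¹ * ‖K (u + Real.log n)‖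
        ≤ ‖b n‖ * 1 * (√(n : ℝ))⁻¹ * ‖K (u + Real.log n)‖ := by gcongr
      _ = 1 * (‖b n‖ * (√(n : ℝ))⁻¹ * ‖K (u + Real.log n)‖) := by ring
      _ ≤ n * (‖b n‖ * (√(n : ℝ))⁻¹ * ‖K (u + Real.log n)‖) := by gcongr

theorem appr_D_add {S : Sys m} (k : Kers S) (P : ℕ) (x : Ix) (u : ℝ) :
    Dx k x u = D (appr_sm S P) (k.K (par x.2)) x u + D (appr_ns S P) (k.K (par x.2)) x u := by
  obtain ⟨Cb, hCb⟩ := S.rs
  have h1 := appr_summable k.κ_pos (k.isKer (par x.2)) (appr_rsb hCb (appr_sm_norm S P)) x u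
  have h2 := appr_summable k.κ_pos (k.isKer (par x.2)) (appr_rsb hCb (appr_ns_norm S P)) x u
  unfold Dx D
  rw [← h1.tsum_add h2]
  refine tsum_congr fun n => ?_
  rw [appr_split S P n]
  ring

theorem appr_two (i : Fin 2) : i = 0 ∨ i = 1 := by
  fin_cases i
  · exact Or.inl rfl
  · exact Or.inr rfl

/-- mean square over the family -/
theorem appr_ms {S : Sys m} (k : Kers S) (Cb : ℝ) : ∃ Ct Cc Cm : ℝ, 0 ≤ Ct ∧ 0 ≤ Cc ∧ 0 ≤ Cm ∧
    ∀ b : ℕ → ℂ, RSB b Cb → ∀ (Q : ℕ) (u : ℝ),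
      (∑ x ∈ pairs S.N Q, ‖D b (k.K (par x.2)) x u‖ ^ 2 ≤ Q ^ 2 * Cc + Cm * Real.exp (-u)) ∧
      ∀ P : ℕ, 1 ≤ P → (∀ n < P, b n = 0) →
        ∑ x ∈ pairs S.N Q, ‖D b (k.K (par x.2)) x u‖ ^ 2 ≤
          Q ^ 2 * (Ct * (((P : ℝ) ^ 2)⁻¹ * Real.exp (-2 * u))) + Cm * Real.exp (-u) := by
  obtain ⟨t0, ht0, h0t⟩ := b0_tail_pr k.κ_pos (k.isKer 0) Cb (A := 2) (by norm_num)
  obtain ⟨t1, ht1, h1t⟩ := b0_tail_pr k.κ_pos (k.isKer 1) Cb (A := 2) (by norm_num)
  obtain ⟨c0, hc0, h0c⟩ := b0_bound_pr k.κ_pos (k.isKer 0) Cb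
  obtain ⟨c1, hc1, h1c⟩ := b0_bound_pr k.κ_pos (k.isKer 1) Cb
  obtain ⟨m0, hm0, h0m⟩ := msf_pr S.N k.κ_pos (k.isKer 0) Cb
  obtain ⟨m1, hm1, h1m⟩ := msf_pr S.N k.κ_pos (k.isKer 1) Cb
  refine ⟨t0 + t1, c0 + c1, m0 + m1, by positivity, by positivity, by positivity, ?_⟩
  intro b hb Q u
  have hsum : ∑ x ∈ pairs S.N Q, ‖D b (k.K (par x.2)) x u‖ ^ 2 ≤
      (∑ x ∈ pairs S.N Q, ‖D b (k.K 0) x u‖ ^ 2) + ∑ x ∈ pairs S.N Q, ‖D b (k.K 1) x u‖ ^ 2 := by
    rw [← Finset.sum_add_distrib]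
    refine Finset.sum_le_sum fun x _ => ?_
    rcases appr_two (par x.2) with h | h
    · rw [h]
      have : 0 ≤ ‖D b (k.K 1) x u‖ ^ 2 := by positivity
      linarith
    · rw [h]
      have : 0 ≤ ‖D b (k.K 0) x u‖ ^ 2 := by positivity
      linarith
  have e0 := h0m b hb Q u
  have e1 := h1m b hb Q u
  have hQ : (0 : ℝ) ≤ (Q : ℝ) ^ 2 := by positivity
  refine ⟨?_, fun P hP hz => ?_⟩
  · have f0 := (h0c b hb u).2
    have f1 := (h1c b hb u).2
    have g0 := mul_le_mul_of_nonneg_left f0 hQ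
    have g1 := mul_le_mul_of_nonneg_left f1 hQ
    rw [mul_add, add_mul]
    linarith
  · have f0 := h0t b hb P hP hz u
    have f1 := h1t b hb P hP hz u
    have hPp : (0 : ℝ) < P := by exact_mod_cast hP
    have hpow : ((P : ℝ) * Real.exp u) ^ (-(2 : ℝ)) = ((P : ℝ) ^ 2)⁻¹ * Real.exp (-2 * u) := by
      rw [Real.mul_rpow hPp.le (Real.exp_pos _).le, ← Real.exp_mul, Real.rpow_neg hPp.le]
      congr 1
      · rw [← Real.rpow_natCast]
        norm_num
      · congr 1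
        ring
    rw [hpow] at f0 f1
    have g0 := mul_le_mul_of_nonneg_left f0 hQ
    have g1 := mul_le_mul_of_nonneg_left f1 hQ
    have : (Q : ℝ) ^ 2 * ((t0 + t1) * (((P : ℝ) ^ 2)⁻¹ * Real.exp (-2 * u))) =
      (Q : ℝ) ^ 2 * (t0 * (((P : ℝ) ^ 2)⁻¹ * Real.exp (-2 * u))) +
        (Q : ℝ) ^ 2 * (t1 * (((P : ℝ) ^ 2)⁻¹ * Real.exp (-2 * u))) := by ring
    rw [this, add_mul]
    linarith

/-- the weighted square of the rest -/
noncomputable def apprG {S : Sys m} (k : Kers S) (P : ℕ) (η : ℝ) (x : Ix) (u : ℝ) : ℝ :=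
  ‖D (appr_ns S P) (k.K (par x.2)) x u‖ ^ 2 * Real.exp (2 * η * u + η * |u|)

theorem appr_ns_cont {S : Sys m} (k : Kers S) (P : ℕ) (x : Ix) :
    Continuous (D (appr_ns S P) (k.K (par x.2)) x) := by
  obtain ⟨Cb, hCb⟩ := S.rs
  exact db_cont_pr k.κ_pos (k.isKer _) (appr_rsb hCb (appr_ns_norm S P)) x

theorem apprG_cont {S : Sys m} (k : Kers S) (P : ℕ) (η : ℝ) (x : Ix) :
    Continuous (apprG k P η x) := by
  have := appr_ns_cont k P x
  unfold apprG
  fun_prop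

theorem apprG_nonneg {S : Sys m} (k : Kers S) (P : ℕ) (η : ℝ) (x : Ix) (u : ℝ) :
    0 ≤ apprG k P η x u := by
  unfold apprG
  positivity

theorem appr_Dx_bdd {S : Sys m} (k : Kers S) {x : Ix} (hx : x.q.Coprime S.N)
    (hp : x.2.IsPrimitive) : ∃ C : ℝ, ∀ u : ℝ, ‖Dx k x u‖ ≤ C := by
  obtain ⟨C, hC⟩ := dens_decay_pr k hx hp 0
  refine ⟨C, fun u => ?_⟩
  have := hC u
  simpa using this

/-- bound for the rest on the whole line -/
theorem appr_ns_le {S : Sys m} (k : Kers S) (P : ℕ) {x : Ix} (hx : x.q.Coprime S.N)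
    (hp : x.2.IsPrimitive) : ∃ C : ℝ, 0 ≤ C ∧ ∀ u : ℝ,
      ‖D (appr_ns S P) (k.K (par x.2)) x u‖ ≤ C ∧
      ‖D (appr_ns S P) (k.K (par x.2)) x u‖ ≤ C * Real.exp (-2 * u) := by
  obtain ⟨Cb, hCb⟩ := S.rs
  obtain ⟨A0, hA0, hb0⟩ := db_bound_pr k.κ_pos (k.isKer (par x.2)) Cb (A := 2) (by norm_num)
  obtain ⟨C1, hC1⟩ := appr_Dx_bdd k hx hp
  obtain ⟨⟨C2, hC2⟩, -⟩ := smooth_mellin_pr k P x (z := 0) (by simp)
  have hC1' : 0 ≤ C1 := (norm_nonneg _).trans (hC1 0)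
  have hC2' : 0 ≤ C2 := (norm_nonneg _).trans (hC2 x 0)
  refine ⟨A0 + C1 + C2, by positivity, fun u => ⟨?_, ?_⟩⟩
  · have e1 := appr_D_add k P x u
    have e2 : D (appr_ns S P) (k.K (par x.2)) x u =
        Dx k x u - D (appr_sm S P) (k.K (par x.2)) x u := by
      rw [e1]
      ring
    rw [e2]
    refine (norm_sub_le _ _).trans ?_
    have e3 := hC1 u
    have e4 : ‖D (appr_sm S P) (k.K (par x.2)) x u‖ ≤ C2 := hC2 x u
    linarith
  · refine (hb0 _ (appr_rsb hCb (appr_ns_norm S P)) x u).trans ?_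
    have := Real.exp_pos (-2 * u)
    exact mul_le_mul_of_nonneg_right (by linarith) this.le

theorem apprG_int {S : Sys m} (k : Kers S) (P : ℕ) {η : ℝ} (hη : 0 < η) (hη1 : η ≤ 1 / 4) {x : Ix}
    (hx : x.q.Coprime S.N) (hp : x.2.IsPrimitive) : Integrable (apprG k P η x) := by
  obtain ⟨C, hC0, hC⟩ := appr_ns_le k P hx hp
  refine Integrable.mono' ((appr_exp_int hη (by linarith)).const_mul (C ^ 2))
    (apprG_cont k P η x).aestronglyMeasurable (ae_of_all _ fun u => ?_)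
  rw [Real.norm_eq_abs, abs_of_nonneg (apprG_nonneg k P η x u), apprG]
  obtain ⟨h1, h2⟩ := hC u
  rcases le_or_gt u 0 with hu | hu
  · rw [abs_of_nonpos hu]
    calc ‖D (appr_ns S P) (k.K (par x.2)) x u‖ ^ 2 * Real.exp (2 * η * u + η * -u)
        ≤ C ^ 2 * Real.exp (2 * η * u + η * -u) := by gcongr
      _ = C ^ 2 * Real.exp (-η * -u) := by
          congr 2
          ring
  · rw [abs_of_pos hu]
    calc ‖D (appr_ns S P) (k.K (par x.2)) x u‖ ^ 2 * Real.exp (2 * η * u + η * u)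
        ≤ (C * Real.exp (-2 * u)) ^ 2 * Real.exp (2 * η * u + η * u) := by gcongr
      _ = C ^ 2 * Real.exp (-4 * u + 3 * η * u) := by
          rw [mul_pow, mul_assoc, ← Real.exp_nat_mul, ← Real.exp_add]
          congr 2
          push_cast
          ring
      _ ≤ C ^ 2 * Real.exp (-η * u) := by
          gcongr
          nlinarith

theorem appr_int {S : Sys m} (k : Kers S) {x : Ix} (hx : x.q.Coprime S.N) (hp : x.2.IsPrimitive)
    (z : ℂ) : Integrable (fun u : ℝ => Dx k x u * cexp (z * u)) := by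
  obtain ⟨Cb, hCb⟩ := S.rs
  have hc : Continuous (Dx k x) := db_cont_pr k.κ_pos (k.isKer _) hCb x
  obtain ⟨C, hC⟩ := dens_decay_pr k hx hp (|z.re| + 1)
  refine Integrable.mono' ((appr_exp_int one_pos le_rfl).const_mul C) (by fun_prop)
    (ae_of_all _ fun u => ?_)
  have h1 : ‖cexp (z * u)‖ ≤ Real.exp (|z.re| * |u|) := by
    rw [Complex.norm_exp, Complex.re_mul_ofReal, ← abs_mul]
    exact Real.exp_le_exp.2 (le_abs_self _)
  rw [norm_mul]
  calc ‖Dx k x u‖ * ‖cexp (z * u)‖ ≤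
        C * Real.exp (-(|z.re| + 1) * |u|) * Real.exp (|z.re| * |u|) :=
        mul_le_mul (hC u) h1 (norm_nonneg _) ((norm_nonneg _).trans (hC u))
    _ = C * Real.exp (-1 * |u|) := by
        rw [mul_assoc, ← Real.exp_add]
        congr 2
        ring

/-- pointwise bound -/
theorem appr_point {S : Sys m} (k : Kers S) (P : ℕ) {η : ℝ} (hη : 0 < η) (hη1 : η ≤ 1 / 4) {x : Ix}
    (hx : x.q.Coprime S.N) (hp : x.2.IsPrimitive) (t : ℝ) :
    ‖Hf k x (η + t * I) - S.gam (par x.2) (1 / 2 + η + t * I) * LP S P x (1 / 2 + η + t * I)‖ ^ 2 ≤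
      2 / η ^ 2 * Real.pi * ∫ u, apprG k P η x u := by
  set z : ℂ := η + t * I with hz
  have hzre : z.re = η := by rw [hz]; simp
  obtain ⟨-, hi, hsm⟩ := smooth_mellin_pr k P x (z := z) (by rw [hzre]; exact hη.le)
  have hi' : Integrable (fun u : ℝ => D (appr_sm S P) (k.K (par x.2)) x u * cexp (z * u)) := hi
  have hsm' : ∫ u : ℝ, D (appr_sm S P) (k.K (par x.2)) x u * cexp (z * u) =
    S.gam (par x.2) (1 / 2 + z) * LP S P x (1 / 2 + z) := hsm
  have hns : ∀ u : ℝ, D (appr_ns S P) (k.K (par x.2)) x u * cexp (z * u) =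
      Dx k x u * cexp (z * u) - D (appr_sm S P) (k.K (par x.2)) x u * cexp (z * u) := by
    intro u
    rw [appr_D_add k P x u]
    ring
  have hnsi : Integrable (fun u : ℝ => D (appr_ns S P) (k.K (par x.2)) x u * cexp (z * u)) := by
    simp only [hns]
    exact (appr_int k hx hp z).sub hi'
  have e1 : Hf k x z - S.gam (par x.2) (1 / 2 + η + t * I) * LP S P x (1 / 2 + η + t * I) =
      ∫ u : ℝ, D (appr_ns S P) (k.K (par x.2)) x u * cexp (z * u) := by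
    have e2 : (1 / 2 + η + t * I : ℂ) = 1 / 2 + z := by rw [hz]; ring
    rw [e2, ← hsm', Hf, ← integral_sub (appr_int k hx hp z) hi']
    exact integral_congr_ae (ae_of_all _ fun u => (hns u).symm)
  rw [e1]
  have hexp : ∀ u : ℝ, ‖cexp (z * u)‖ = Real.exp (η * u) := by
    intro u
    rw [Complex.norm_exp, Complex.re_mul_ofReal, hzre]
  set f : ℝ → ℝ := fun u => ‖D (appr_ns S P) (k.K (par x.2)) x u‖ * Real.exp (η * u) with hf
  have hfi : Integrable f := by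
    refine hnsi.norm.congr (ae_of_all _ fun u => ?_)
    rw [hf]
    simp only
    rw [norm_mul, hexp]
  have hfw : ∀ u : ℝ, f u ^ 2 / Real.exp (-η * |u|) = apprG k P η x u := by
    intro u
    rw [hf, apprG]
    simp only
    rw [mul_pow, mul_div_assoc, ← Real.exp_nat_mul, ← Real.exp_sub]
    congr 2
    push_cast
    ring
  have hcs := appr_cs (f := f) (w := fun u => Real.exp (-η * |u|)) (fun u => Real.exp_pos _)
    (appr_exp_int hη (by linarith)) (appr_exp_integral_pos hη (by linarith)) hfi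
    (by
      simp only [hfw]
      exact apprG_int k P hη hη1 hx hp)
  simp only [hfw] at hcs
  have h1 : ‖∫ u : ℝ, D (appr_ns S P) (k.K (par x.2)) x u * cexp (z * u)‖ ≤ ∫ u, f u := by
    refine (norm_integral_le_integral_norm _).trans (le_of_eq ?_)
    refine integral_congr_ae (ae_of_all _ fun u => ?_)
    simp only
    rw [norm_mul, hexp]
  have h2 : 0 ≤ ∫ u, apprG k P η x u := integral_nonneg (apprG_nonneg k P η x)
  calc ‖∫ u : ℝ, D (appr_ns S P) (k.K (par x.2)) x u * cexp (z * u)‖ ^ 2 ≤ (∫ u, f u) ^ 2 :=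
        pow_le_pow_left₀ (norm_nonneg _) h1 2
    _ ≤ _ := hcs
    _ ≤ _ := mul_le_mul_of_nonneg_right (appr_exp_integral hη (by linarith)) h2

/-- weight on `u ≥ -U` -/
theorem appr_w1 {η U u : ℝ} (hη : 0 < η) (hη1 : η ≤ 1 / 4) (hU : 0 ≤ U) (hu : -U ≤ u) :
    Real.exp (2 * η * u + η * |u|) ≤ Real.exp (3 / 4 * (u + U)) := by
  apply Real.exp_le_exp.2
  rcases le_or_gt u 0 with h | h
  · rw [abs_of_nonpos h]
    nlinarith
  · rw [abs_of_pos h]
    nlinarith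

theorem appr_w2 {η u : ℝ} (hu : u ≤ 0) :
    Real.exp (2 * η * u + η * |u|) = Real.exp (η * u) := by
  rw [abs_of_nonpos hu]
  congr 1
  ring

theorem appr_ellQ_nonneg (S : Sys m) {Q : ℕ} (hQ : 1 ≤ Q) : 0 ≤ ellQ S Q := by
  unfold ellQ
  have h1 : 0 ≤ Real.log S.N := Real.log_nonneg (by exact_mod_cast S.N_pos)
  have h2 : 0 ≤ Real.log Q := Real.log_nonneg (by exact_mod_cast hQ)
  positivity

theorem appr_ellQ_le (S : Sys m) (hm : m ≤ 4) {Q : ℕ} (hQ : 1 ≤ Q) :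
    Real.exp (ellQ S Q) ≤ S.N * Q ^ 2 := by
  have hQ0 : (0 : ℝ) < Q := by exact_mod_cast hQ
  have hN0 : (0 : ℝ) < S.N := by exact_mod_cast S.N_pos
  have h1 : 0 ≤ Real.log S.N := Real.log_nonneg (by exact_mod_cast S.N_pos)
  have h2 : 0 ≤ Real.log Q := Real.log_nonneg (by exact_mod_cast hQ)
  have h3 : (m : ℝ) ≤ 4 := by exact_mod_cast hm
  have h4 : ellQ S Q ≤ Real.log (S.N * (Q : ℝ) ^ 2) := by
    rw [Real.log_mul hN0.ne' (by positivity), Real.log_pow]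
    unfold ellQ
    push_cast
    nlinarith
  calc Real.exp (ellQ S Q) ≤ Real.exp (Real.log (S.N * (Q : ℝ) ^ 2)) := Real.exp_le_exp.2 h4
    _ = S.N * (Q : ℝ) ^ 2 := Real.exp_log (by positivity)

theorem appr_ellQ_tendsto (S : Sys m) (hm1 : 1 ≤ m) :
    Tendsto (fun Q : ℕ => ellQ S Q) atTop atTop := by
  unfold ellQ
  have h1 : Tendsto (fun Q : ℕ => Real.log (Q : ℝ)) atTop atTop :=
    Real.tendsto_log_atTop.comp tendsto_natCast_atTop_atTop
  have hm0 : (0 : ℝ) < m := by exact_mod_cast hm1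
  have h2 := h1.const_mul_atTop hm0
  exact (tendsto_atTop_add_const_left _ _ h2).atTop_div_const (by norm_num)

/-- part 1: `u ≥ -U` -/
theorem appr_part1 {S : Sys m} (k : Kers S) {η U : ℝ} (hη : 0 < η) (hη1 : η ≤ 1 / 4) (hU : 0 ≤ U)
    {P Q : ℕ} (hP : 1 ≤ P) {Ct Cm : ℝ} (hCt : 0 ≤ Ct) (hCm : 0 ≤ Cm)
    (h : ∀ u : ℝ, ∑ x ∈ pairs S.N Q, ‖D (appr_ns S P) (k.K (par x.2)) x u‖ ^ 2 ≤
          Q ^ 2 * (Ct * (((P : ℝ) ^ 2)⁻¹ * Real.exp (-2 * u))) + Cm * Real.exp (-u)) :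
    ∑ x ∈ pairs S.N Q, ∫ u in Set.Ici (-U), apprG k P η x u ≤
      (Q ^ 2 * (Ct * ((P : ℝ) ^ 2)⁻¹ * Real.exp U) + Cm) * (4 * Real.exp U) := by
  have hint : ∀ x ∈ pairs S.N Q, IntegrableOn (apprG k P η x) (Set.Ici (-U)) := by
    intro x hx
    obtain ⟨h1, h2⟩ := appr_mem hx
    exact (apprG_int k P hη hη1 h1 h2).integrableOn
  rw [← integral_finsetSum _ hint]
  set c : ℝ := (Q ^ 2 * (Ct * ((P : ℝ) ^ 2)⁻¹ * Real.exp U) + Cm) * Real.exp (3 / 4 * U) with hc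
  have hci := (appr_ici (-U)).1.const_mul c
  calc ∫ u in Set.Ici (-U), ∑ x ∈ pairs S.N Q, apprG k P η x u
      ≤ ∫ u in Set.Ici (-U), c * Real.exp (-(1 / 4) * u) := by
        refine setIntegral_mono_on (integrable_finsetSum _ hint) hci measurableSet_Ici ?_
        intro u hu
        have hu' : -U ≤ u := hu
        unfold apprG
        rw [← Finset.sum_mul]
        have e1 := h u
        have e2 := appr_w1 hη hη1 hU hu'
        have e3 : Real.exp (-2 * u) ≤ Real.exp U * Real.exp (-u) := by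
          rw [← Real.exp_add]
          exact Real.exp_le_exp.2 (by linarith)
        have e0 : (0 : ℝ) ≤ ∑ x ∈ pairs S.N Q, ‖D (appr_ns S P) (k.K (par x.2)) x u‖ ^ 2 :=
          Finset.sum_nonneg fun _ _ => by positivity
        calc (∑ x ∈ pairs S.N Q, ‖D (appr_ns S P) (k.K (par x.2)) x u‖ ^ 2) *
              Real.exp (2 * η * u + η * |u|)
            ≤ (Q ^ 2 * (Ct * (((P : ℝ) ^ 2)⁻¹ * (Real.exp U * Real.exp (-u)))) +
              Cm * Real.exp (-u)) * Real.exp (3 / 4 * (u + U)) := by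
              refine mul_le_mul (e1.trans ?_) e2 (Real.exp_pos _).le (by positivity)
              gcongr
          _ = (Q ^ 2 * (Ct * ((P : ℝ) ^ 2)⁻¹ * Real.exp U) + Cm) *
              (Real.exp (-u) * Real.exp (3 / 4 * (u + U))) := by ring
          _ = c * Real.exp (-(1 / 4) * u) := by
              have e9 : Real.exp (-u) * Real.exp (3 / 4 * (u + U)) =
                  Real.exp (3 / 4 * U) * Real.exp (-(1 / 4) * u) := by
                rw [← Real.exp_add, ← Real.exp_add]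
                congr 1
                ring
              rw [hc, e9, mul_assoc (Q ^ 2 * (Ct * ((P : ℝ) ^ 2)⁻¹ * Real.exp U) + Cm)]
    _ = c * (4 * Real.exp (-(1 / 4) * -U)) := by
        rw [integral_const_mul, (appr_ici (-U)).2]
    _ = _ := by
        rw [hc]
        have : Real.exp (3 / 4 * U) * (4 * Real.exp (-(1 / 4) * -U)) = 4 * Real.exp U := by
          rw [mul_comm, mul_assoc, ← Real.exp_add]
          congr 2
          ring
        rw [mul_assoc, this]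

/-- part 2 -/
theorem appr_part2 {S : Sys m} (hm : m ≤ 4) (k : Kers S) {η U : ℝ} (hη : 0 < η) (hη1 : η ≤ 1 / 4)
    (hU : 0 ≤ U) {P Q : ℕ} (hQ : 1 ≤ Q) {Cc Cm : ℝ} (hCc : 0 ≤ Cc) (hCm : 0 ≤ Cm)
    (h : ∀ u : ℝ, ∑ x ∈ pairs S.N Q, ‖D (appr_ns S P) (k.K (par x.2)) x u‖ ^ 2 ≤
          Q ^ 2 * Cc + Cm * Real.exp (-u)) :
    ∑ x ∈ pairs S.N Q, ∫ u in Set.Iio (-U) ∩ Set.Ici (-ellQ S Q), apprG k P η x u ≤
      Q ^ 2 * (Cc + Cm * S.N) * (Real.exp (-η * U) / η) := by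
  set A : Set ℝ := Set.Iio (-U) ∩ Set.Ici (-ellQ S Q) with hA
  have hAm : MeasurableSet A := measurableSet_Iio.inter measurableSet_Ici
  have hint : ∀ x ∈ pairs S.N Q, IntegrableOn (apprG k P η x) A := by
    intro x hx
    obtain ⟨h1, h2⟩ := appr_mem hx
    exact (apprG_int k P hη hη1 h1 h2).integrableOn
  rw [← integral_finsetSum _ hint]
  set c : ℝ := Q ^ 2 * (Cc + Cm * S.N) with hc
  have hc0 : 0 ≤ c := by positivity
  have hci : IntegrableOn (fun u : ℝ => c * Real.exp (η * u)) (Set.Iio (-U)) :=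
    (appr_iio hη (-U)).1.const_mul c
  calc ∫ u in A, ∑ x ∈ pairs S.N Q, apprG k P η x u
      ≤ ∫ u in A, c * Real.exp (η * u) := by
        refine setIntegral_mono_on (integrable_finsetSum _ hint)
          (hci.mono_set Set.inter_subset_left) hAm ?_
        intro u hu
        have hu1 : u < -U := hu.1
        have hu2 : -ellQ S Q ≤ u := hu.2
        unfold apprG
        rw [← Finset.sum_mul, appr_w2 (by linarith)]
        refine mul_le_mul_of_nonneg_right ?_ (Real.exp_pos _).le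
        refine (h u).trans ?_
        have e1 : Real.exp (-u) ≤ S.N * Q ^ 2 :=
          (Real.exp_le_exp.2 (by linarith)).trans (appr_ellQ_le S hm hQ)
        calc (Q : ℝ) ^ 2 * Cc + Cm * Real.exp (-u) ≤ Q ^ 2 * Cc + Cm * (S.N * Q ^ 2) := by gcongr
          _ = c := by rw [hc]; ring
    _ ≤ ∫ u in Set.Iio (-U), c * Real.exp (η * u) := by
        refine setIntegral_mono_set hci (ae_of_all _ fun u => ?_)
          (Set.inter_subset_left.eventuallyLE)
        simp only [Pi.zero_apply]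
        positivity
    _ = c * (Real.exp (η * -U) / η) := by
        rw [integral_const_mul, (appr_iio hη (-U)).2]
    _ = _ := by
        congr 3
        ring

/-- part 3 -/
theorem appr_part3 {S : Sys m} (k : Kers S) {η U : ℝ} (hη : 0 < η) (hη1 : η ≤ 1 / 4)
    {P Q : ℕ} (hQ : 1 ≤ Q) {C2 : ℝ}
    (h : ∀ (x : Ix) (u : ℝ), ‖D (appr_sm S P) (k.K (par x.2)) x u‖ ≤ C2) :
    ∑ x ∈ pairs S.N Q, ∫ u in Set.Iio (-U) ∩ (Set.Ici (-ellQ S Q))ᶜ, apprG k P η x u ≤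
      2 * (∑ x ∈ pairs S.N Q, ∫ u in Set.Iio (-ellQ S Q), Real.exp (η * u) * ‖Dx k x u‖ ^ 2) +
        Q ^ 2 * (2 * C2 ^ 2 * (Real.exp (-η * ellQ S Q) / η)) := by
  have hl := appr_ellQ_nonneg S hQ
  set L := ellQ S Q with hL
  have hset : Set.Iio (-U) ∩ (Set.Ici (-L))ᶜ ⊆ Set.Iio (-L) := by
    intro u hu
    have := hu.2
    rw [Set.mem_compl_iff, Set.mem_Ici, not_le] at this
    exact this
  have hx : ∀ x ∈ pairs S.N Q, ∫ u in Set.Iio (-U) ∩ (Set.Ici (-L))ᶜ, apprG k P η x u ≤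
      2 * (∫ u in Set.Iio (-L), Real.exp (η * u) * ‖Dx k x u‖ ^ 2) +
        2 * C2 ^ 2 * (Real.exp (-η * L) / η) := by
    intro x hx
    obtain ⟨h1, h2⟩ := appr_mem hx
    obtain ⟨Cb, hCb⟩ := S.rs
    have hcD : Continuous (Dx k x) := db_cont_pr k.κ_pos (k.isKer _) hCb x
    obtain ⟨C1, hC1⟩ := appr_Dx_bdd k h1 h2
    have hGi : IntegrableOn (apprG k P η x) (Set.Iio (-L)) :=
      (apprG_int k P hη hη1 h1 h2).integrableOn
    have hE := (appr_iio hη (-L)).1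
    have hDi : IntegrableOn (fun u : ℝ => Real.exp (η * u) * ‖Dx k x u‖ ^ 2) (Set.Iio (-L)) := by
      refine Integrable.mono' (hE.const_mul (C1 ^ 2)) (by fun_prop) (ae_of_all _ fun u => ?_)
      rw [Real.norm_eq_abs, abs_of_nonneg (by positivity), mul_comm]
      have := hC1 u
      gcongr
    calc ∫ u in Set.Iio (-U) ∩ (Set.Ici (-L))ᶜ, apprG k P η x u
        ≤ ∫ u in Set.Iio (-L), apprG k P η x u := by
          refine setIntegral_mono_set hGi (ae_of_all _ fun u => ?_) hset.eventuallyLE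
          exact apprG_nonneg k P η x u
      _ ≤ ∫ u in Set.Iio (-L), (2 * (Real.exp (η * u) * ‖Dx k x u‖ ^ 2) +
            2 * C2 ^ 2 * Real.exp (η * u)) := by
          refine setIntegral_mono_on hGi ((hDi.const_mul 2).add (hE.const_mul _))
            measurableSet_Iio ?_
          intro u hu
          have hu1 : u < -L := hu
          rw [apprG, appr_w2 (by linarith)]
          have e1 := appr_D_add k P x u
          have e2 : D (appr_ns S P) (k.K (par x.2)) x u =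
              Dx k x u - D (appr_sm S P) (k.K (par x.2)) x u := by
            rw [e1]
            ring
          have e3 : ‖D (appr_ns S P) (k.K (par x.2)) x u‖ ≤ ‖Dx k x u‖ + C2 := by
            rw [e2]
            refine (norm_sub_le _ _).trans ?_
            have := h x u
            linarith
          have e4 : ‖D (appr_ns S P) (k.K (par x.2)) x u‖ ^ 2 ≤ 2 * ‖Dx k x u‖ ^ 2 + 2 * C2 ^ 2 := by
            have := pow_le_pow_left₀ (norm_nonneg _) e3 2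
            nlinarith [sq_nonneg (‖Dx k x u‖ - C2)]
          have e5 := Real.exp_pos (η * u)
          nlinarith
      _ = _ := by
          have i1 : IntegrableOn (fun u : ℝ => 2 * (Real.exp (η * u) * ‖Dx k x u‖ ^ 2))
            (Set.Iio (-L)) := hDi.const_mul 2
          have i2 : IntegrableOn (fun u : ℝ => 2 * C2 ^ 2 * Real.exp (η * u)) (Set.Iio (-L)) :=
            hE.const_mul _
          rw [integral_add i1 i2, integral_const_mul, integral_const_mul, (appr_iio hη (-L)).2]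
          congr 4
          ring
  refine (Finset.sum_le_sum hx).trans ?_
  rw [Finset.sum_add_distrib, ← Finset.mul_sum, Finset.sum_const, nsmul_eq_mul]
  have hcard := appr_card S.N Q
  have : 0 ≤ 2 * C2 ^ 2 * (Real.exp (-η * L) / η) := by positivity
  have := mul_le_mul_of_nonneg_right hcard this
  linarith

theorem appr_total {S : Sys m} (hm1 : 1 ≤ m) (hm : m ≤ 4) (k : Kers S) {η : ℝ}
    (hη : 0 < η) (hη1 : η ≤ 1 / 4) {ε : ℝ} (hε : 0 < ε) : ∃ P₀ : ℕ, ∀ P : ℕ, P₀ ≤ P →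
      ∃ Q₀ : ℕ, ∀ Q : ℕ, Q₀ ≤ Q → ∑ x ∈ pairs S.N Q, ∫ u, apprG k P η x u ≤ ε * Q ^ 2 := by
  obtain ⟨Cb, hCb⟩ := S.rs
  obtain ⟨Ct, Cc, Cm, hCt, hCc, hCm, hms⟩ := appr_ms k Cb
  have hN0 : (0 : ℝ) ≤ S.N := Nat.cast_nonneg _
  -- choice of U
  obtain ⟨U, hU0, hU⟩ : ∃ U : ℝ, 0 ≤ U ∧ (Cc + Cm * S.N) * (Real.exp (-η * U) / η) ≤ ε / 5 := by
    have h1 : Tendsto (fun U : ℝ => (Cc + Cm * S.N) * (Real.exp (-η * U) / η)) atTop (𝓝 0) := by
      have h2 : Tendsto (fun U : ℝ => Real.exp (-(η * U))) atTop (𝓝 0) :=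
        Real.tendsto_exp_neg_atTop_nhds_zero.comp (tendsto_id.const_mul_atTop hη)
      have h3 := (h2.div_const η).const_mul (Cc + Cm * S.N)
      simp only [zero_div, mul_zero] at h3
      refine h3.congr fun U => ?_
      rw [neg_mul]
    have h4 := (h1.eventually (gt_mem_nhds (by positivity : (0 : ℝ) < ε / 5))).and
      (eventually_ge_atTop (0 : ℝ))
    obtain ⟨U, hU1, hU2⟩ := h4.exists
    exact ⟨U, hU2, hU1.le⟩
  -- choice of P₀
  obtain ⟨P₀, hP₀⟩ : ∃ P₀ : ℕ, ∀ P : ℕ, P₀ ≤ P →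
      Ct * ((P : ℝ) ^ 2)⁻¹ * Real.exp U * (4 * Real.exp U) ≤ ε / 5 := by
    have h1 : Tendsto (fun P : ℕ => ((P : ℝ) ^ 2)⁻¹) atTop (𝓝 0) :=
      tendsto_inv_atTop_zero.comp
        ((tendsto_pow_atTop two_ne_zero).comp tendsto_natCast_atTop_atTop)
    have h2 : Tendsto (fun P : ℕ => Ct * ((P : ℝ) ^ 2)⁻¹ * Real.exp U * (4 * Real.exp U)) atTop
        (𝓝 (Ct * 0 * Real.exp U * (4 * Real.exp U))) :=
      ((h1.const_mul Ct).mul_const _).mul_const _
    simp only [mul_zero, zero_mul] at h2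
    obtain ⟨P₀, hP₀⟩ := eventually_atTop.1
      (h2.eventually (gt_mem_nhds (by positivity : (0 : ℝ) < ε / 5)))
    exact ⟨P₀, fun P hP => (hP₀ P hP).le⟩
  refine ⟨max P₀ 1, fun P hP => ?_⟩
  have hP1 : 1 ≤ P := (le_max_right _ _).trans hP
  have hPP := hP₀ P ((le_max_left _ _).trans hP)
  -- the bound for the smooth part
  obtain ⟨C2, hC2⟩ : ∃ C2 : ℝ, ∀ (y : Ix) (u : ℝ),
      ‖D (appr_sm S P) (k.K (par y.2)) y u‖ ≤ C2 := by
    obtain ⟨⟨C2, hC2⟩, -⟩ := smooth_mellin_pr k P ⟨0, 1⟩ (z := 0) (by simp)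
    exact ⟨C2, hC2⟩
  -- choice of Q₀
  obtain ⟨Q₁, hQ₁⟩ := mse_pr hm1 hm k hη (by positivity : (0 : ℝ) < ε / 10)
  obtain ⟨Q₂, hQ₂⟩ : ∃ Q₂ : ℕ, ∀ Q : ℕ, Q₂ ≤ Q →
      2 * C2 ^ 2 * (Real.exp (-η * ellQ S Q) / η) ≤ ε / 5 := by
    have h2 : Tendsto (fun Q : ℕ => Real.exp (-(η * ellQ S Q))) atTop (𝓝 0) :=
      Real.tendsto_exp_neg_atTop_nhds_zero.comp ((appr_ellQ_tendsto S hm1).const_mul_atTop hη)
    have h3 := (h2.div_const η).const_mul (2 * C2 ^ 2)
    simp only [zero_div, mul_zero] at h3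
    obtain ⟨Q₂, hQ₂⟩ := eventually_atTop.1
      (h3.eventually (gt_mem_nhds (by positivity : (0 : ℝ) < ε / 5)))
    refine ⟨Q₂, fun Q hQ => ?_⟩
    have := (hQ₂ Q hQ).le
    rwa [neg_mul]
  obtain ⟨Q₃, hQ₃⟩ : ∃ Q₃ : ℕ, ∀ Q : ℕ, Q₃ ≤ Q → Cm * (4 * Real.exp U) ≤ ε / 5 * Q ^ 2 := by
    have h1 : Tendsto (fun Q : ℕ => ε / 5 * (Q : ℝ) ^ 2) atTop atTop :=
      ((tendsto_pow_atTop two_ne_zero).comp tendsto_natCast_atTop_atTop).const_mul_atTop
        (by positivity)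
    obtain ⟨Q₃, hQ₃⟩ := eventually_atTop.1 (h1.eventually (eventually_ge_atTop (Cm * (4 * Real.exp U))))
    exact ⟨Q₃, hQ₃⟩
  refine ⟨max (max Q₁ Q₂) (max Q₃ 1), fun Q hQ => ?_⟩
  have hQa : Q₁ ≤ Q := ((le_max_left _ _).trans (le_max_left _ _)).trans hQ
  have hQb : Q₂ ≤ Q := ((le_max_right _ _).trans (le_max_left _ _)).trans hQ
  have hQc : Q₃ ≤ Q := ((le_max_left _ _).trans (le_max_right _ _)).trans hQ
  have hQd : 1 ≤ Q := ((le_max_right _ _).trans (le_max_right _ _)).trans hQ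
  have hrsb := appr_rsb hCb (appr_ns_norm S P)
  have hz : ∀ n < P, appr_ns S P n = 0 := fun n hn => appr_ns_zero S hn.le
  have p1 := appr_part1 k hη hη1 hU0 (P := P) (Q := Q) hP1 hCt hCm
    (fun u => (hms _ hrsb Q u).2 P hP1 hz)
  have p2 := appr_part2 hm k hη hη1 hU0 (P := P) hQd hCc hCm (fun u => (hms _ hrsb Q u).1)
  have p3 := appr_part3 k hη hη1 (U := U) (P := P) hQd hC2
  have hsplit : ∀ x ∈ pairs S.N Q, ∫ u, apprG k P η x u =
      (∫ u in Set.Ici (-U), apprG k P η x u) +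
      ((∫ u in Set.Iio (-U) ∩ Set.Ici (-ellQ S Q), apprG k P η x u) +
        ∫ u in Set.Iio (-U) ∩ (Set.Ici (-ellQ S Q))ᶜ, apprG k P η x u) := by
    intro x hx
    obtain ⟨h1, h2⟩ := appr_mem hx
    have hi := apprG_int k P hη hη1 h1 h2
    rw [← integral_add_compl (s := Set.Ici (-U)) measurableSet_Ici hi, Set.compl_Ici]
    congr 1
    have := integral_inter_add_sdiff (μ := volume) (f := apprG k P η x) (s := Set.Iio (-U))
      (t := Set.Ici (-ellQ S Q)) measurableSet_Ici hi.integrableOn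
    rw [← this, Set.sdiff_eq]
  rw [Finset.sum_congr rfl hsplit, Finset.sum_add_distrib, Finset.sum_add_distrib]
  have hQ2 : (0 : ℝ) ≤ (Q : ℝ) ^ 2 := by positivity
  have q1 : (Q ^ 2 * (Ct * ((P : ℝ) ^ 2)⁻¹ * Real.exp U) + Cm) * (4 * Real.exp U) ≤
      2 / 5 * ε * Q ^ 2 := by
    have e1 : (Q ^ 2 * (Ct * ((P : ℝ) ^ 2)⁻¹ * Real.exp U) + Cm) * (4 * Real.exp U) =
      (Q : ℝ) ^ 2 * (Ct * ((P : ℝ) ^ 2)⁻¹ * Real.exp U * (4 * Real.exp U)) +
        Cm * (4 * Real.exp U) := by ring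
    have e2 := mul_le_mul_of_nonneg_left hPP hQ2
    have e3 := hQ₃ Q hQc
    rw [e1]
    linarith
  have q2 : Q ^ 2 * (Cc + Cm * S.N) * (Real.exp (-η * U) / η) ≤ 1 / 5 * ε * Q ^ 2 := by
    have e2 := mul_le_mul_of_nonneg_left hU hQ2
    have e1 : (Q : ℝ) ^ 2 * (Cc + Cm * S.N) * (Real.exp (-η * U) / η) =
      (Q : ℝ) ^ 2 * ((Cc + Cm * S.N) * (Real.exp (-η * U) / η)) := by ring
    rw [e1]
    linarith
  have q3 := hQ₁ Q hQa
  have q4 := mul_le_mul_of_nonneg_left (hQ₂ Q hQb) hQ2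
  linarith

theorem appr_pr {S : Sys m} (hm1 : 1 ≤ m) (hm : m ≤ 4) (k : Kers S) {α β : ℝ} (hαβ : α ≤ β) {η : ℝ}
    (hη : 0 < η) (hη' : η ≤ 1 / 4) {ε : ℝ} (hε : 0 < ε) : ∃ P₀ : ℕ, ∀ P : ℕ, P₀ ≤ P →
      ∃ Q₀ : ℕ, ∀ Q : ℕ, Q₀ ≤ Q → ∑ x ∈ pairs S.N Q, ∫ t in α..β,
        ‖Hf k x (η + t * I) - S.gam (par x.2) (1 / 2 + η + t * I) * LP S P x (1 / 2 + η + t * I)‖ ^ 2
          ≤ ε * Q ^ 2 := by
  have hpi := Real.pi_pos
  have hβα : 0 ≤ β - α := by linarith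
  set K : ℝ := 2 / η ^ 2 * Real.pi with hK
  have hK0 : 0 < K := by positivity
  have hden : 0 < (β - α) * K + 1 := by positivity
  obtain ⟨P₀, hP₀⟩ := appr_total hm1 hm k hη hη' (by positivity : (0 : ℝ) < ε / ((β - α) * K + 1))
  refine ⟨P₀, fun P hP => ?_⟩
  obtain ⟨Q₀, hQ₀⟩ := hP₀ P hP
  refine ⟨Q₀, fun Q hQ => ?_⟩
  have h1 : ∀ x ∈ pairs S.N Q, ∫ t in α..β,
      ‖Hf k x (η + t * I) - S.gam (par x.2) (1 / 2 + η + t * I) * LP S P x (1 / 2 + η + t * I)‖ ^ 2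
        ≤ (β - α) * K * ∫ u, apprG k P η x u := by
    intro x hx
    obtain ⟨hxN, hxp⟩ := appr_mem hx
    have h2 : 0 ≤ ∫ u, apprG k P η x u := integral_nonneg (apprG_nonneg k P η x)
    have h3 := intervalIntegral.norm_integral_le_of_norm_le_const (a := α) (b := β)
      (C := K * ∫ u, apprG k P η x u)
      (f := fun t : ℝ => ‖Hf k x (η + t * I) -
        S.gam (par x.2) (1 / 2 + η + t * I) * LP S P x (1 / 2 + η + t * I)‖ ^ 2) (fun t _ => by
        rw [Real.norm_eq_abs, abs_of_nonneg (by positivity)]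
        exact appr_point k P hη hη' hxN hxp t)
    rw [abs_of_nonneg hβα] at h3
    refine (le_abs_self _).trans (h3.trans (le_of_eq ?_))
    ring
  refine (Finset.sum_le_sum h1).trans ?_
  rw [← Finset.mul_sum]
  have h4 := hQ₀ Q hQ
  have h5 : 0 ≤ (β - α) * K := by positivity
  have hQ2 : (0 : ℝ) ≤ (Q : ℝ) ^ 2 := by positivity
  calc (β - α) * K * ∑ x ∈ pairs S.N Q, ∫ u, apprG k P η x u
      ≤ (β - α) * K * (ε / ((β - α) * K + 1) * Q ^ 2) := mul_le_mul_of_nonneg_left h4 h5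
    _ = ((β - α) * K / ((β - α) * K + 1)) * (ε * Q ^ 2) := by ring
    _ ≤ 1 * (ε * Q ^ 2) := by
        have : (β - α) * K / ((β - α) * K + 1) ≤ 1 := by
          rw [div_le_one hden]
          linarith
        exact mul_le_mul_of_nonneg_right this (by positivity)
    _ = ε * Q ^ 2 := one_mul _

end Pool.Agent.G4
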