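import Pool.Agent.Lib_helper44.G4.Defs

/-! Block KT: the Fourier transform of the Poisson kernel away from its peak. -/

namespace Pool.Agent.G4

open Complex MeasureTheory Filter Topology

theorem kt_exp_norm (s u : ℝ) : ‖cexp (s * u * I)‖ = 1 := by
  rw [← Complex.ofReal_mul, Complex.norm_exp_ofReal_mul_I]

theorem kt_int {g : ℝ → ℝ} (hg : Continuous g) {c : ℝ} (h : ∀ s, |g s| ≤ c / (1 + s ^ 2)) :
    Integrable g := by
  refine Integrable.mono' (g := fun s => c * (1 + s ^ 2)⁻¹)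
    (integrable_inv_one_add_sq.const_mul _) hg.aestronglyMeasurable ?_
  exact ae_of_all _ fun s => by
    rw [Real.norm_eq_abs, ← div_eq_mul_inv]
    exact h s

theorem kt_int' {g : ℝ → ℝ} (hg : Continuous g) {c : ℝ} (h : ∀ s, |g s| ≤ c / (1 + s ^ 2))
    (u : ℝ) : Integrable (fun s : ℝ => (g s : ℂ) * cexp (s * u * I)) := by
  refine Integrable.mono' (kt_int hg h).norm ?_ ?_
  · exact (by fun_prop : Continuous fun s : ℝ => (g s : ℂ) * cexp (s * u * I)).aestronglyMeasurable
  · exact ae_of_all _ fun s => by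
      rw [norm_mul, kt_exp_norm, mul_one, Complex.norm_real]

theorem kt_parts {g g1 : ℝ → ℝ} (hd : ∀ s, HasDerivAt g (g1 s) s) (hg1 : Continuous g1) {c : ℝ}
    (h : ∀ s, |g s| ≤ c / (1 + s ^ 2)) (h1 : ∀ s, |g1 s| ≤ c / (1 + s ^ 2)) (u : ℝ) :
    (u * I) * ∫ s : ℝ, (g s : ℂ) * cexp (s * u * I) = -∫ s : ℝ, (g1 s : ℂ) * cexp (s * u * I) := by
  have hg : Continuous g := continuous_iff_continuousAt.2 fun s => (hd s).continuousAt
  have hde : ∀ s : ℝ, HasDerivAt (fun s : ℝ => cexp (s * u * I)) (u * I * cexp (s * u * I)) s := by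
    intro s
    have e1 : HasDerivAt (fun s : ℝ => (s : ℂ) * u * I) (1 * u * I) s := by
      exact ((Complex.ofRealCLM.hasDerivAt (x := s)).mul_const (u : ℂ)).mul_const I
    have e2 := e1.cexp
    convert e2 using 1
    ring
  have hdg : ∀ s : ℝ, HasDerivAt (fun s : ℝ => (g s : ℂ)) ((g1 s : ℝ) : ℂ) s := fun s =>
    (hd s).ofReal_comp
  have i0 := kt_int' hg h u
  have i1 := kt_int' hg1 h1 u
  have key := integral_mul_deriv_eq_deriv_mul_of_integrable (u := fun s : ℝ => (g s : ℂ))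
    (v := fun s : ℝ => cexp (s * u * I)) (u' := fun s => ((g1 s : ℝ) : ℂ))
    (v' := fun s : ℝ => u * I * cexp (s * u * I)) (fun s _ => hdg s) (fun s _ => hde s)
    (by
      refine (i0.const_mul (u * I)).congr (ae_of_all _ fun s => ?_)
      simp only [Pi.mul_apply]
      ring) i1 i0
  rw [← key, ← integral_const_mul]
  refine integral_congr_ae (ae_of_all _ fun s => ?_)
  simp only
  ring

theorem kt_main {g g1 g2 : ℝ → ℝ} (hd : ∀ s, HasDerivAt g (g1 s) s)
    (hd1 : ∀ s, HasDerivAt g1 (g2 s) s) (hg2 : Continuous g2) {c : ℝ}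
    (h : ∀ s, |g s| ≤ c / (1 + s ^ 2)) (h1 : ∀ s, |g1 s| ≤ c / (1 + s ^ 2))
    (h2 : ∀ s, |g2 s| ≤ c / (1 + s ^ 2)) (u : ℝ) :
    ‖∫ s : ℝ, (g s : ℂ) * cexp (s * u * I)‖ ≤ 2 * c * Real.pi / (1 + u ^ 2) := by
  have hg : Continuous g := continuous_iff_continuousAt.2 fun s => (hd s).continuousAt
  have hg1 : Continuous g1 := continuous_iff_continuousAt.2 fun s => (hd1 s).continuousAt
  have e1 := kt_parts hd hg1 h h1 u
  have e2 := kt_parts hd1 hg2 h1 h2 u
  have e3 : (1 + (u : ℂ) ^ 2) * ∫ s : ℝ, (g s : ℂ) * cexp (s * u * I) =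
      (∫ s : ℝ, (g s : ℂ) * cexp (s * u * I)) - ∫ s : ℝ, (g2 s : ℂ) * cexp (s * u * I) := by
    have e4 : (u * I) * ((u * I) * ∫ s : ℝ, (g s : ℂ) * cexp (s * u * I)) =
        ∫ s : ℝ, (g2 s : ℂ) * cexp (s * u * I) := by
      rw [e1, mul_neg, e2, neg_neg]
    have e5 : (u * I) * ((u * I) * ∫ s : ℝ, (g s : ℂ) * cexp (s * u * I)) =
        -(u : ℂ) ^ 2 * ∫ s : ℝ, (g s : ℂ) * cexp (s * u * I) := by
      linear_combination ((u : ℂ) ^ 2 * ∫ s : ℝ, (g s : ℂ) * cexp (s * u * I)) * Complex.I_sq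
    linear_combination (-1 : ℂ) * e4 + e5
  have hb : ∀ f : ℝ → ℝ, Continuous f → (∀ s, |f s| ≤ c / (1 + s ^ 2)) →
      ‖∫ s : ℝ, (f s : ℂ) * cexp (s * u * I)‖ ≤ c * Real.pi := by
    intro f hf hfc
    calc ‖∫ s : ℝ, (f s : ℂ) * cexp (s * u * I)‖ ≤ ∫ s : ℝ, ‖(f s : ℂ) * cexp (s * u * I)‖ :=
          norm_integral_le_integral_norm _
      _ ≤ ∫ s : ℝ, c * (1 + s ^ 2)⁻¹ := by
          refine integral_mono (kt_int' hf hfc u).norm (integrable_inv_one_add_sq.const_mul _) ?_
          intro s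
          simp only
          rw [norm_mul, kt_exp_norm, mul_one, Complex.norm_real, Real.norm_eq_abs,
            ← div_eq_mul_inv]
          exact hfc s
      _ = c * Real.pi := by rw [integral_const_mul, integral_univ_inv_one_add_sq]
  have h3 : ‖(1 + (u : ℂ) ^ 2)‖ = 1 + u ^ 2 := by
    have : (1 + (u : ℂ) ^ 2) = ((1 + u ^ 2 : ℝ) : ℂ) := by push_cast; ring
    rw [this, Complex.norm_real, Real.norm_eq_abs, abs_of_pos (by positivity)]
  rw [le_div_iff₀ (by positivity), mul_comm, ← h3, ← norm_mul, e3]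
  refine (norm_sub_le _ _).trans ?_
  have b1 := hb g hg h
  have b2 := hb g2 hg2 h2
  linarith

theorem kt_ab (a x b y : ℝ) : |a * x + b * y| ≤ |a| * |x| + |b| * |y| := by
  refine (abs_add_le _ _).trans ?_
  rw [abs_mul, abs_mul]

theorem kt_bound_pr {φ : ℝ → ℝ} (hφ : ContDiff ℝ 2 φ) (hc : HasCompactSupport φ)
    {α₁ β₁ α₂ β₂ : ℝ} (h1 : ∀ t ∈ Set.Icc α₁ β₁, φ t = 1) (hα : α₁ < α₂) (hβ : β₂ < β₁) :
    ∃ C : ℝ, 0 ≤ C ∧ ∀ η ∈ Set.Ioc (0 : ℝ) 1, ∀ t ∈ Set.Icc α₂ β₂, ∀ u : ℝ,
      ‖∫ s : ℝ, (((1 - φ s) * (η / (Real.pi * ((t - s) ^ 2 + η ^ 2))) : ℝ) : ℂ) *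
        cexp (s * u * I)‖ ≤ C * η / (1 + u ^ 2) := by
  -- derivatives of φ
  have hφ0 : Continuous φ := hφ.continuous
  have hD1 : ContDiff ℝ 1 (deriv φ) := by
    have : ContDiff ℝ (1 + 1) φ := by
      norm_num
      exact hφ
    exact (contDiff_succ_iff_deriv.1 this).2.2
  have hφ1 : Continuous (deriv φ) := hD1.continuous
  have hφ2 : Continuous (deriv (deriv φ)) := by
    have : ContDiff ℝ (0 + 1) (deriv φ) := by
      norm_num
      exact hD1
    exact (contDiff_succ_iff_deriv.1 this).2.2.continuous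
  have hd0 : ∀ s, HasDerivAt φ (deriv φ s) s := fun s =>
    (hφ.differentiable (by norm_num) s).hasDerivAt
  have hd1 : ∀ s, HasDerivAt (deriv φ) (deriv (deriv φ) s) s := fun s =>
    (hD1.differentiable (by norm_num) s).hasDerivAt
  obtain ⟨M0, hM0⟩ := hc.exists_bound_of_continuous hφ0
  obtain ⟨M1, hM1⟩ := hc.deriv.exists_bound_of_continuous hφ1
  obtain ⟨M2, hM2⟩ := hc.deriv.deriv.exists_bound_of_continuous hφ2
  set M : ℝ := 1 + |M0| + |M1| + |M2| with hM
  have hMpos : 0 < M := by positivity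
  have hb0 : ∀ s, |1 - φ s| ≤ M := by
    intro s
    have e1 := hM0 s
    rw [Real.norm_eq_abs] at e1
    have e2 := abs_sub (1 : ℝ) (φ s)
    rw [abs_one] at e2
    have e3 := le_abs_self M0
    have e4 := abs_nonneg M1
    have e5 := abs_nonneg M2
    linarith
  have hb1 : ∀ s, |deriv φ s| ≤ M := by
    intro s
    have e1 := hM1 s
    rw [Real.norm_eq_abs] at e1
    have e3 := le_abs_self M1
    have e4 := abs_nonneg M0
    have e5 := abs_nonneg M2
    linarith
  have hb2 : ∀ s, |deriv (deriv φ) s| ≤ M := by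
    intro s
    have e1 := hM2 s
    rw [Real.norm_eq_abs] at e1
    have e3 := le_abs_self M2
    have e4 := abs_nonneg M0
    have e5 := abs_nonneg M1
    linarith
  -- vanishing on the interior
  have hz0 : ∀ s ∈ Set.Ioo α₁ β₁, 1 - φ s = 0 := fun s hs => by
    rw [h1 s ⟨hs.1.le, hs.2.le⟩, sub_self]
  have hz1 : ∀ s ∈ Set.Ioo α₁ β₁, deriv φ s = 0 := by
    intro s hs
    have : φ =ᶠ[𝓝 s] fun _ => (1 : ℝ) := by
      filter_upwards [isOpen_Ioo.mem_nhds hs] with x hx
      exact h1 x ⟨hx.1.le, hx.2.le⟩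
    rw [this.deriv_eq, deriv_const]
  have hz2 : ∀ s ∈ Set.Ioo α₁ β₁, deriv (deriv φ) s = 0 := by
    intro s hs
    have : deriv φ =ᶠ[𝓝 s] fun _ => (0 : ℝ) := by
      filter_upwards [isOpen_Ioo.mem_nhds hs] with x hx
      exact hz1 x hx
    rw [this.deriv_eq, deriv_const]
  -- distance
  set d : ℝ := min (α₂ - α₁) (β₁ - β₂) with hd
  have hdpos : 0 < d := lt_min (by linarith) (by linarith)
  set T : ℝ := |α₂| + |β₂| with hT
  set L : ℝ := 2 + (1 + 2 * T ^ 2) / d ^ 2 with hL
  have hLpos : 0 < L := by positivity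
  set c0 : ℝ := M * (1 / Real.pi) * L * (1 + 4 / d + 10 / d ^ 2) with hc0
  have hpi := Real.pi_pos
  refine ⟨2 * c0 * Real.pi, by positivity, ?_⟩
  intro η hη t ht u
  have hη0 : 0 < η := hη.1
  have hTt : t ^ 2 ≤ T ^ 2 := by
    apply sq_le_sq'
    · have := neg_abs_le α₂
      have := abs_nonneg β₂
      have := ht.1
      linarith
    · have := le_abs_self β₂
      have := abs_nonneg α₂
      have := ht.2
      linarith
  have hfar : ∀ s, s ∉ Set.Ioo α₁ β₁ → d ^ 2 ≤ (s - t) ^ 2 := by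
    intro s hs
    rw [Set.mem_Ioo, not_and_or, not_lt, not_lt] at hs
    have e1 : d ≤ α₂ - α₁ := min_le_left _ _
    have e2 : d ≤ β₁ - β₂ := min_le_right _ _
    rcases hs with hs | hs
    · have : d ≤ t - s := by linarith [ht.1]
      nlinarith
    · have : d ≤ s - t := by linarith [ht.2]
      nlinarith
  set r : ℝ → ℝ := fun s => (t - s) ^ 2 + η ^ 2 with hr
  have hrpos : ∀ s, 0 < r s := fun s => by
    rw [hr]
    positivity
  have hr1 : ∀ s, (s - t) ^ 2 ≤ r s := fun s => by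
    rw [hr]
    simp only
    nlinarith [sq_nonneg η]
  set P : ℝ → ℝ := fun s => η / Real.pi * (r s)⁻¹ with hP
  set P1 : ℝ → ℝ := fun s => η / Real.pi * (-(2 * (s - t)) / r s ^ 2) with hP1
  set P2 : ℝ → ℝ := fun s => η / Real.pi * (8 * (s - t) ^ 2 / r s ^ 3 - 2 / r s ^ 2) with hP2
  have hrd : ∀ s, HasDerivAt r (2 * (s - t)) s := by
    intro s
    have e1 : HasDerivAt (fun s : ℝ => (t - s)) (-1) s := by
      simpa using (hasDerivAt_id s).const_sub t
    have e2 := (e1.pow 2).add_const (η ^ 2)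
    refine e2.congr_deriv ?_
    push_cast
    ring
  have hPd : ∀ s, HasDerivAt P (P1 s) s := by
    intro s
    have e1 := ((hrd s).inv (hrpos s).ne').const_mul (η / Real.pi)
    exact e1
  have hP1d : ∀ s, HasDerivAt P1 (P2 s) s := by
    intro s
    have e0 : HasDerivAt (fun s : ℝ => -(2 * (s - t))) (-(2 * 1)) s :=
      (((hasDerivAt_id s).sub_const t).const_mul 2).neg
    have e1 : HasDerivAt (fun s => r s ^ 2) (2 * r s * (2 * (s - t))) s := by
      have := (hrd s).pow 2
      refine this.congr_deriv ?_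
      push_cast
      ring
    have e2 := (e0.div e1 (pow_ne_zero 2 (hrpos s).ne')).const_mul (η / Real.pi)
    refine e2.congr_deriv ?_
    show η / Real.pi * _ = η / Real.pi * (8 * (s - t) ^ 2 / r s ^ 3 - 2 / r s ^ 2)
    have hne := (hrpos s).ne'
    congr 1
    field_simp
    ring
  have hinv : ∀ s, s ∉ Set.Ioo α₁ β₁ → (r s)⁻¹ ≤ L / (1 + s ^ 2) := by
    intro s hs
    have e1 := hfar s hs
    have e2 := hr1 s
    rw [le_div_iff₀ (by positivity), inv_mul_le_iff₀ (hrpos s)]
    have e3 : 1 + s ^ 2 ≤ L * (s - t) ^ 2 := by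
      have e4 : (1 + 2 * T ^ 2) ≤ (1 + 2 * T ^ 2) / d ^ 2 * (s - t) ^ 2 := by
        rw [div_mul_eq_mul_div, le_div_iff₀ (by positivity)]
        exact mul_le_mul_of_nonneg_left e1 (by positivity)
      have e5 : s ^ 2 ≤ 2 * (s - t) ^ 2 + 2 * t ^ 2 := by nlinarith [sq_nonneg (s - 2 * t)]
      rw [hL, add_mul]
      linarith
    rw [mul_comm]
    exact e3.trans (mul_le_mul_of_nonneg_left e2 hLpos.le)
  have hη' : 0 < η / Real.pi := by positivity
  have hbP : ∀ s, s ∉ Set.Ioo α₁ β₁ → |P s| ≤ η / Real.pi * (L / (1 + s ^ 2)) := by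
    intro s hs
    rw [hP]
    simp only
    rw [abs_mul, abs_of_pos hη', abs_of_pos (inv_pos.2 (hrpos s))]
    exact mul_le_mul_of_nonneg_left (hinv s hs) hη'.le
  have hbP1 : ∀ s, s ∉ Set.Ioo α₁ β₁ → |P1 s| ≤ η / Real.pi * (L / (1 + s ^ 2)) * (2 / d) := by
    intro s hs
    have e1 := hfar s hs
    have e2 := hr1 s
    rw [hP1]
    simp only
    rw [abs_mul, abs_of_pos hη', mul_assoc]
    refine mul_le_mul_of_nonneg_left ?_ hη'.le
    rw [abs_div, abs_neg, abs_mul, abs_two, abs_of_pos (pow_pos (hrpos s) 2)]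
    have e3 : 0 ≤ |s - t| := abs_nonneg _
    have e4 : d ≤ |s - t| := by
      rw [← abs_of_pos hdpos]
      exact sq_le_sq.1 e1
    have e5 : |s - t| ^ 2 ≤ r s := by rw [sq_abs]; exact e2
    have e6 : 2 * |s - t| / r s ^ 2 ≤ (r s)⁻¹ * (2 / d) := by
      rw [div_le_iff₀ (pow_pos (hrpos s) 2)]
      have e7 : (r s)⁻¹ * (2 / d) * r s ^ 2 = 2 * r s / d := by
        have := (hrpos s).ne'
        field_simp
      rw [e7, le_div_iff₀ hdpos]
      nlinarith
    refine e6.trans ?_
    exact mul_le_mul_of_nonneg_right (hinv s hs) (by positivity)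
  have hbP2 : ∀ s, s ∉ Set.Ioo α₁ β₁ → |P2 s| ≤ η / Real.pi * (L / (1 + s ^ 2)) * (10 / d ^ 2) := by
    intro s hs
    have e1 := hfar s hs
    have e2 := hr1 s
    rw [hP2]
    simp only
    rw [abs_mul, abs_of_pos hη', mul_assoc]
    refine mul_le_mul_of_nonneg_left ?_ hη'.le
    have hne := (hrpos s).ne'
    have e3 : |8 * (s - t) ^ 2 / r s ^ 3 - 2 / r s ^ 2| ≤ 10 / r s ^ 2 := by
      have e4 : 0 ≤ 8 * (s - t) ^ 2 / r s ^ 3 := by
        have := hrpos s
        positivity
      have e5 : 8 * (s - t) ^ 2 / r s ^ 3 ≤ 8 / r s ^ 2 := by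
        rw [div_le_div_iff₀ (pow_pos (hrpos s) 3) (pow_pos (hrpos s) 2)]
        have := hrpos s
        have e9 : 8 * (s - t) ^ 2 * r s ^ 2 ≤ 8 * r s * r s ^ 2 := by gcongr
        calc 8 * (s - t) ^ 2 * r s ^ 2 ≤ 8 * r s * r s ^ 2 := e9
          _ = 8 * r s ^ 3 := by ring
      have e6 : 0 ≤ 2 / r s ^ 2 := by
        have := hrpos s
        positivity
      have e7 : 8 / r s ^ 2 + 2 / r s ^ 2 = 10 / r s ^ 2 := by ring
      rw [abs_le]
      constructor
      · have e8 : 2 / r s ^ 2 ≤ 10 / r s ^ 2 := by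
          rw [← e7]
          have : 0 ≤ 8 / r s ^ 2 := by
            have := hrpos s
            positivity
          linarith
        linarith
      · linarith
    refine e3.trans ?_
    have e4 : 10 / r s ^ 2 = (r s)⁻¹ * (10 / r s) := by field_simp
    rw [e4]
    have e5 : 10 / r s ≤ 10 / d ^ 2 := by
      apply div_le_div_of_nonneg_left (by norm_num) (by positivity) (e1.trans e2)
    have := hrpos s
    have h8 : 0 ≤ L / (1 + s ^ 2) := by positivity
    exact mul_le_mul (hinv s hs) e5 (by positivity) h8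
  -- the functions
  set g : ℝ → ℝ := fun s => (1 - φ s) * P s with hg
  set g1 : ℝ → ℝ := fun s => -deriv φ s * P s + (1 - φ s) * P1 s with hg1
  set g2 : ℝ → ℝ := fun s => (-deriv (deriv φ) s * P s + -deriv φ s * P1 s) +
    (-deriv φ s * P1 s + (1 - φ s) * P2 s) with hg2
  have hψd : ∀ s, HasDerivAt (fun s => 1 - φ s) (-deriv φ s) s := fun s => (hd0 s).const_sub 1
  have hgd : ∀ s, HasDerivAt g (g1 s) s := fun s => (hψd s).mul (hPd s)
  have hg1d : ∀ s, HasDerivAt g1 (g2 s) s := fun s =>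
    (((hd1 s).neg).mul (hPd s)).add ((hψd s).mul (hP1d s))
  have hPc : Continuous P := continuous_iff_continuousAt.2 fun s => (hPd s).continuousAt
  have hP1c : Continuous P1 := continuous_iff_continuousAt.2 fun s => (hP1d s).continuousAt
  have hP2c : Continuous P2 := by
    have hrc : Continuous r := continuous_iff_continuousAt.2 fun s => (hrd s).continuousAt
    rw [hP2]
    refine continuous_const.mul ?_
    refine Continuous.sub (Continuous.div (by fun_prop) (hrc.pow 3) fun s =>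
      pow_ne_zero 3 (hrpos s).ne') (Continuous.div (by fun_prop) (hrc.pow 2) fun s =>
      pow_ne_zero 2 (hrpos s).ne')
  have hg2c : Continuous g2 := by
    rw [hg2]
    fun_prop
  have hK : c0 * η = M * (η / Real.pi * L) * (1 + 4 / d + 10 / d ^ 2) := by
    rw [hc0]
    ring
  have hA : ∀ s : ℝ, 0 ≤ η / Real.pi * (L / (1 + s ^ 2)) := fun s => by positivity
  have hcs : ∀ s : ℝ, c0 * η / (1 + s ^ 2) =
      M * (η / Real.pi * (L / (1 + s ^ 2))) * (1 + 4 / d + 10 / d ^ 2) := by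
    intro s
    rw [hK]
    ring
  have q1 : 0 ≤ 4 / d := by positivity
  have q2 : 0 ≤ 10 / d ^ 2 := by positivity
  have q4 : 2 / d ≤ 4 / d := by gcongr; norm_num
  have hB0 : ∀ s, |g s| ≤ c0 * η / (1 + s ^ 2) := by
    intro s
    rw [hcs s]
    by_cases hs : s ∈ Set.Ioo α₁ β₁
    · rw [hg]
      simp only
      rw [hz0 s hs, zero_mul, abs_zero]
      have := hA s
      positivity
    · rw [hg]
      simp only
      rw [abs_mul]
      have e1 := hbP s hs
      have e2 := hb0 s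
      calc |1 - φ s| * |P s| ≤ M * (η / Real.pi * (L / (1 + s ^ 2))) := by
            have := abs_nonneg (P s)
            gcongr
        _ = M * (η / Real.pi * (L / (1 + s ^ 2))) * 1 := by ring
        _ ≤ _ := by
            have := hA s
            refine mul_le_mul_of_nonneg_left ?_ (by positivity)
            linarith
  have hB1 : ∀ s, |g1 s| ≤ c0 * η / (1 + s ^ 2) := by
    intro s
    rw [hcs s]
    by_cases hs : s ∈ Set.Ioo α₁ β₁
    · rw [hg1]
      simp only
      rw [hz0 s hs, hz1 s hs]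
      simp only [neg_zero, zero_mul, add_zero, abs_zero]
      have := hA s
      positivity
    · rw [hg1]
      simp only
      have e1 := hbP s hs
      have e1' := hbP1 s hs
      have e2 := hb0 s
      have e3 := hb1 s
      have hAs := hA s
      calc |-deriv φ s * P s + (1 - φ s) * P1 s| ≤ |deriv φ s| * |P s| + |1 - φ s| * |P1 s| := by
            have := kt_ab (-deriv φ s) (P s) (1 - φ s) (P1 s)
            rwa [abs_neg] at this
        _ ≤ M * (η / Real.pi * (L / (1 + s ^ 2))) +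
            M * (η / Real.pi * (L / (1 + s ^ 2)) * (2 / d)) := by
            have := abs_nonneg (P s)
            have := abs_nonneg (P1 s)
            gcongr
        _ = M * (η / Real.pi * (L / (1 + s ^ 2))) * (1 + 2 / d) := by ring
        _ ≤ _ := by
            refine mul_le_mul_of_nonneg_left ?_ (by positivity)
            linarith
  have hB2 : ∀ s, |g2 s| ≤ c0 * η / (1 + s ^ 2) := by
    intro s
    rw [hcs s]
    by_cases hs : s ∈ Set.Ioo α₁ β₁
    · rw [hg2]
      simp only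
      rw [hz0 s hs, hz1 s hs, hz2 s hs]
      simp only [neg_zero, zero_mul, add_zero, abs_zero]
      have := hA s
      positivity
    · rw [hg2]
      simp only
      have e1 := hbP s hs
      have e1' := hbP1 s hs
      have e1'' := hbP2 s hs
      have e2 := hb0 s
      have e3 := hb1 s
      have e4 := hb2 s
      have hAs := hA s
      calc |(-deriv (deriv φ) s * P s + -deriv φ s * P1 s) +
            (-deriv φ s * P1 s + (1 - φ s) * P2 s)|
          ≤ (|deriv (deriv φ) s| * |P s| + |deriv φ s| * |P1 s|) +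
            (|deriv φ s| * |P1 s| + |1 - φ s| * |P2 s|) := by
            have q5 := kt_ab (-deriv (deriv φ) s) (P s) (-deriv φ s) (P1 s)
            have q6 := kt_ab (-deriv φ s) (P1 s) (1 - φ s) (P2 s)
            rw [abs_neg, abs_neg] at q5
            rw [abs_neg] at q6
            exact (abs_add_le _ _).trans (add_le_add q5 q6)
        _ ≤ (M * (η / Real.pi * (L / (1 + s ^ 2))) +
            M * (η / Real.pi * (L / (1 + s ^ 2)) * (2 / d))) +
            (M * (η / Real.pi * (L / (1 + s ^ 2)) * (2 / d)) +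
            M * (η / Real.pi * (L / (1 + s ^ 2)) * (10 / d ^ 2))) := by
            have := abs_nonneg (P s)
            have := abs_nonneg (P1 s)
            have := abs_nonneg (P2 s)
            gcongr
        _ = M * (η / Real.pi * (L / (1 + s ^ 2))) * (1 + 4 / d + 10 / d ^ 2) := by ring
  have key := kt_main hgd hg1d hg2c hB0 hB1 hB2 u
  have e0 : ∀ s : ℝ, (((1 - φ s) * (η / (Real.pi * ((t - s) ^ 2 + η ^ 2))) : ℝ) : ℂ) =
      ((g s : ℝ) : ℂ) := by
    intro s
    rw [hg, hP, hr]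
    congr 1
    simp only
    have := hrpos s
    field_simp
  simp only [e0]
  refine key.trans (le_of_eq ?_)
  ring

end Pool.Agent.G4
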