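import Pool.Agent.Lib_helper22.G4.POI
import Pool.Agent.Lib_helper38.G4.DB
import Pool.Agent.Lib_helper44.G4.Defs
import Pool.Agent.Lib_helper50.G4.DEC
import Pool.Agent.Lib_helper60.G4.MSW
import Pool.Agent.Lib_helper89.G4.KT
import Pool.Agent.Lib_helper93.G4.CNT

/-! Block PINEQ: the critical line against the line `1/2 + η`. -/

namespace Pool.Agent.G4

open Complex MeasureTheory Filter Topology

variable {m : ℕ}

theorem pineq_mem {N Q : ℕ} {x : Ix} (hx : x ∈ pairs N Q) : x.q.Coprime N ∧ x.2.IsPrimitive := by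
  classical
  unfold pairs at hx
  rw [Finset.mem_sigma] at hx
  exact ⟨(Finset.mem_filter.1 hx.1).2, (Finset.mem_filter.1 hx.2).2⟩

theorem pineq_card (N Q : ℕ) : ((pairs N Q).card : ℝ) ≤ Q ^ 2 := by
  have h := card_pairs_dvd_pr N Q 1 one_pos
  have h2 : (pairs N Q).filter (fun x => 1 ∣ x.q) = pairs N Q :=
    Finset.filter_true_of_mem fun x _ => one_dvd _
  rw [h2] at h
  simpa using h

theorem pineq_sq_le (u : ℝ) : 1 + u ^ 2 ≤ 2 * Real.exp |u| := by
  have h := Real.quadratic_le_exp_of_nonneg (abs_nonneg u)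
  rw [sq_abs] at h
  have := abs_nonneg u
  linarith

theorem pineq_cont {S : Sys m} (k : Kers S) (x : Ix) : Continuous (Dx k x) := by
  obtain ⟨C, hC⟩ := S.rs
  have hb : RSB S.a C := hC
  exact db_cont_pr k.κ_pos (k.isKer _) hb x

/-- decay with a good constant -/
theorem pineq_dec {S : Sys m} (k : Kers S) {x : Ix} (hx : x.q.Coprime S.N) (hp : x.2.IsPrimitive)
    (A : ℝ) : ∃ C : ℝ, 0 ≤ C ∧ ∀ u : ℝ, ‖Dx k x u‖ * Real.exp (A * |u|) ≤ C * (1 + u ^ 2)⁻¹ := by
  obtain ⟨C, hC⟩ := dens_decay_pr k hx hp (A + 1)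
  have hC0 : 0 ≤ C := by
    have := (norm_nonneg _).trans (hC 0)
    simpa using this
  refine ⟨2 * C, by positivity, fun u => ?_⟩
  have h1 := hC u
  have h2 := pineq_sq_le u
  have h3 : 0 < Real.exp |u| := Real.exp_pos _
  calc ‖Dx k x u‖ * Real.exp (A * |u|) ≤ C * Real.exp (-(A + 1) * |u|) * Real.exp (A * |u|) := by
        gcongr
    _ = C * (Real.exp |u|)⁻¹ := by
        rw [mul_assoc, ← Real.exp_add, ← Real.exp_neg]
        congr 2
        ring
    _ ≤ 2 * C * (1 + u ^ 2)⁻¹ := by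
        have h4 : (Real.exp |u|)⁻¹ ≤ 2 * (1 + u ^ 2)⁻¹ := by
          rw [inv_le_iff_one_le_mul₀ h3, mul_assoc, ← div_le_iff₀' (by norm_num : (0 : ℝ) < 2)]
          rw [← div_eq_inv_mul, le_div_iff₀ (by positivity)]
          linarith
        calc C * (Real.exp |u|)⁻¹ ≤ C * (2 * (1 + u ^ 2)⁻¹) := by gcongr
          _ = 2 * C * (1 + u ^ 2)⁻¹ := by ring

theorem pineq_exp_le (z : ℂ) (u : ℝ) : ‖cexp (z * u)‖ ≤ Real.exp (|z.re| * |u|) := by
  rw [Complex.norm_exp, Complex.re_mul_ofReal, ← abs_mul]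
  exact Real.exp_le_exp.2 (le_abs_self _)

theorem pineq_int {S : Sys m} (k : Kers S) {x : Ix} (hx : x.q.Coprime S.N) (hp : x.2.IsPrimitive)
    (z : ℂ) : Integrable (fun u : ℝ => Dx k x u * cexp (z * u)) := by
  obtain ⟨C, hC0, hC⟩ := pineq_dec k hx hp |z.re|
  have hc := pineq_cont k x
  refine Integrable.mono' (g := fun u => C * (1 + u ^ 2)⁻¹)
    (integrable_inv_one_add_sq.const_mul _) (by fun_prop) ?_
  refine ae_of_all _ fun u => ?_
  rw [norm_mul]
  exact (mul_le_mul_of_nonneg_left (pineq_exp_le z u) (norm_nonneg _)).trans (hC u)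

theorem pineq_Hf_cont {S : Sys m} (k : Kers S) {x : Ix} (hx : x.q.Coprime S.N)
    (hp : x.2.IsPrimitive) (η : ℝ) : Continuous (fun t : ℝ => Hf k x (η + t * I)) := by
  obtain ⟨C, hC0, hC⟩ := pineq_dec k hx hp |η|
  have hc := pineq_cont k x
  unfold Hf
  refine continuous_of_dominated (bound := fun u => C * (1 + u ^ 2)⁻¹) ?_ ?_
    (integrable_inv_one_add_sq.const_mul _) ?_
  · intro t
    exact (by fun_prop : Continuous fun u : ℝ =>
      Dx k x u * cexp ((η + t * I) * u)).aestronglyMeasurable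
  · intro t
    refine ae_of_all _ fun u => ?_
    rw [norm_mul]
    have h1 := pineq_exp_le (η + t * I) u
    have h2 : (η + t * I : ℂ).re = η := by simp
    rw [h2] at h1
    exact (mul_le_mul_of_nonneg_left h1 (norm_nonneg _)).trans (hC u)
  · exact ae_of_all _ fun u => by fun_prop

theorem pineq_Hf0_cont {S : Sys m} (k : Kers S) {x : Ix} (hx : x.q.Coprime S.N)
    (hp : x.2.IsPrimitive) : Continuous (fun t : ℝ => Hf k x (t * I)) := by
  have h := pineq_Hf_cont k hx hp 0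
  have h2 : (fun t : ℝ => Hf k x (((0 : ℝ) : ℂ) + t * I)) = fun t : ℝ => Hf k x (t * I) := by
    ext t
    rw [Complex.ofReal_zero, zero_add]
  rwa [h2] at h

/-- the Poisson kernel -/
noncomputable def pineq_P (η t s : ℝ) : ℝ := η / (Real.pi * ((t - s) ^ 2 + η ^ 2))

theorem pineq_P_pos {η : ℝ} (hη : 0 < η) (t s : ℝ) : 0 < pineq_P η t s := by
  unfold pineq_P
  have := Real.pi_pos
  positivity

theorem pineq_P_comm (η t s : ℝ) : pineq_P η t s = pineq_P η s t := by
  unfold pineq_P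
  rw [show (t - s) ^ 2 = (s - t) ^ 2 by ring]

theorem pineq_P_cont {η : ℝ} (hη : 0 < η) : Continuous (fun p : ℝ × ℝ => pineq_P η p.1 p.2) := by
  unfold pineq_P
  have := Real.pi_pos
  refine Continuous.div (by fun_prop) (by fun_prop) fun p => by positivity

theorem pineq_P_le {η : ℝ} (hη : 0 < η) (t s : ℝ) : pineq_P η t s ≤ 1 / (Real.pi * η) := by
  unfold pineq_P
  have := Real.pi_pos
  rw [div_le_div_iff₀ (by positivity) (by positivity)]
  have : 0 ≤ Real.pi * (t - s) ^ 2 := by positivity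
  nlinarith

theorem pineq_P_int {η : ℝ} (hη : 0 < η) (t : ℝ) : Integrable (pineq_P η t) := by
  have hpi := Real.pi_pos
  have hc : Continuous (pineq_P η t) := (pineq_P_cont hη).comp (by fun_prop : Continuous fun s : ℝ => (t, s))
  refine Integrable.mono' (g := fun s => (η / Real.pi * (2 + (1 + 2 * t ^ 2) / η ^ 2)) * (1 + s ^ 2)⁻¹)
    (integrable_inv_one_add_sq.const_mul _) hc.aestronglyMeasurable ?_
  refine ae_of_all _ fun s => ?_
  rw [Real.norm_eq_abs, abs_of_pos (pineq_P_pos hη t s), pineq_P, ← div_eq_mul_inv,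
    div_le_div_iff₀ (by positivity) (by positivity)]
  have h1 : 1 + s ^ 2 ≤ (2 + (1 + 2 * t ^ 2) / η ^ 2) * ((t - s) ^ 2 + η ^ 2) := by
    have e1 : (2 + (1 + 2 * t ^ 2) / η ^ 2) * ((t - s) ^ 2 + η ^ 2) =
        2 * (t - s) ^ 2 + 2 * η ^ 2 + (1 + 2 * t ^ 2) / η ^ 2 * (t - s) ^ 2 + (1 + 2 * t ^ 2) := by
      field_simp
      ring
    rw [e1]
    have e2 : 0 ≤ (1 + 2 * t ^ 2) / η ^ 2 * (t - s) ^ 2 := by positivity
    have e3 : 0 ≤ η ^ 2 := by positivity
    nlinarith [sq_nonneg (s - 2 * t)]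
  calc η * (1 + s ^ 2) ≤ η * ((2 + (1 + 2 * t ^ 2) / η ^ 2) * ((t - s) ^ 2 + η ^ 2)) := by gcongr
    _ = _ := by
      field_simp

theorem pineq_P_one {η : ℝ} (hη : 0 < η) (s : ℝ) : ∫ t : ℝ, pineq_P η t s = 1 := by
  have h := poisson_ft_pr hη s 0
  have h2 : ∫ t : ℝ, ((pineq_P η s t : ℝ) : ℂ) = 1 := by
    have e : ∀ t : ℝ, ((pineq_P η s t : ℝ) : ℂ) =
        ((η / (Real.pi * ((s - t) ^ 2 + η ^ 2)) : ℝ) : ℂ) * cexp (t * (0 : ℝ) * I) := by
      intro t
      simp [pineq_P]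
    simp only [e]
    rw [h]
    simp
  rw [integral_complex_ofReal] at h2
  have h3 : ∫ t : ℝ, pineq_P η s t = 1 := by exact_mod_cast h2
  rw [← h3]
  exact integral_congr_ae (ae_of_all _ fun t => pineq_P_comm η t s)

/-- the averaged inequality -/
theorem pineq_avg {φ H : ℝ → ℝ} (hφ : Continuous φ) (hc : HasCompactSupport φ) (h0 : ∀ t, 0 ≤ φ t)
    (hH : Continuous H) (hH0 : ∀ t, 0 ≤ H t) {η : ℝ} (hη : 0 < η) {α β : ℝ} (hαβ : α ≤ β) :
    ∫ t in α..β, (∫ s : ℝ, φ s * pineq_P η t s * H s) ≤ ∫ s : ℝ, φ s * H s := by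
  rw [intervalIntegral.integral_of_le hαβ]
  have hint : Integrable (fun s => φ s * H s) :=
    (hφ.mul hH).integrable_of_hasCompactSupport hc.mul_right
  have hprod : Integrable (Function.uncurry fun t s : ℝ => φ s * pineq_P η t s * H s)
      ((volume.restrict (Set.Ioc α β)).prod volume) := by
    have h1 : Integrable (fun _ : ℝ => (1 / (Real.pi * η) : ℝ)) (volume.restrict (Set.Ioc α β)) :=
      integrable_const _
    have h2 := h1.mul_prod hint
    refine h2.mono' ?_ ?_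
    · have hP := pineq_P_cont hη
      refine Continuous.aestronglyMeasurable ?_
      have : (Function.uncurry fun t s : ℝ => φ s * pineq_P η t s * H s) =
          fun p : ℝ × ℝ => φ p.2 * pineq_P η p.1 p.2 * H p.2 := by
        ext p
        rfl
      rw [this]
      fun_prop
    · refine ae_of_all _ fun p => ?_
      show ‖φ p.2 * pineq_P η p.1 p.2 * H p.2‖ ≤ 1 / (Real.pi * η) * (φ p.2 * H p.2)
      have e1 := pineq_P_pos hη p.1 p.2
      have e2 := pineq_P_le hη p.1 p.2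
      have e3 := h0 p.2
      have e4 := hH0 p.2
      rw [Real.norm_eq_abs, abs_of_nonneg (by positivity)]
      calc φ p.2 * pineq_P η p.1 p.2 * H p.2 = pineq_P η p.1 p.2 * (φ p.2 * H p.2) := by ring
        _ ≤ 1 / (Real.pi * η) * (φ p.2 * H p.2) := by gcongr
  rw [integral_integral_swap hprod]
  refine integral_mono_of_nonneg (ae_of_all _ fun s => ?_) hint (ae_of_all _ fun s => ?_)
  · refine integral_nonneg fun t => ?_
    have e1 := pineq_P_pos hη t s
    have e3 := h0 s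
    have e4 := hH0 s
    positivity
  · show ∫ t in Set.Ioc α β, φ s * pineq_P η t s * H s ≤ φ s * H s
    have e3 := h0 s
    have e4 := hH0 s
    have h1 : ∫ t in Set.Ioc α β, φ s * pineq_P η t s * H s =
        (φ s * H s) * ∫ t in Set.Ioc α β, pineq_P η t s := by
      rw [← integral_const_mul]
      refine integral_congr_ae (ae_of_all _ fun t => ?_)
      simp only
      ring
    rw [h1]
    have hPi : Integrable (fun t => pineq_P η t s) :=
      (pineq_P_int hη s).congr (ae_of_all _ fun t => pineq_P_comm η s t)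
    have h2 : ∫ t in Set.Ioc α β, pineq_P η t s ≤ 1 := by
      rw [← pineq_P_one hη s]
      exact setIntegral_le_integral hPi (ae_of_all _ fun t => (pineq_P_pos hη t s).le)
    calc (φ s * H s) * ∫ t in Set.Ioc α β, pineq_P η t s ≤ (φ s * H s) * 1 := by gcongr
      _ = φ s * H s := mul_one _

/-- Cauchy-Schwarz with the weight `1/(1+u²)` -/
theorem pineq_cs {f : ℝ → ℝ} (h1 : Integrable fun u => f u / (1 + u ^ 2))
    (h2 : Integrable fun u => f u ^ 2 / (1 + u ^ 2)) :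
    (∫ u, f u / (1 + u ^ 2)) ^ 2 ≤ Real.pi * ∫ u, f u ^ 2 / (1 + u ^ 2) := by
  have hpi := Real.pi_pos
  set J1 := ∫ u, f u / (1 + u ^ 2) with hJ1
  set J2 := ∫ u, f u ^ 2 / (1 + u ^ 2) with hJ2
  have h3 : 0 ≤ ∫ u, (f u - J1 / Real.pi) ^ 2 / (1 + u ^ 2) :=
    integral_nonneg fun u => by positivity
  have h4 : ∫ u, (f u - J1 / Real.pi) ^ 2 / (1 + u ^ 2) =
      J2 - 2 * (J1 / Real.pi) * J1 + (J1 / Real.pi) ^ 2 * Real.pi := by
    have e1 : ∀ u : ℝ, (f u - J1 / Real.pi) ^ 2 / (1 + u ^ 2) =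
        (f u ^ 2 / (1 + u ^ 2) - 2 * (J1 / Real.pi) * (f u / (1 + u ^ 2))) +
          (J1 / Real.pi) ^ 2 * (1 + u ^ 2)⁻¹ := by
      intro u
      have : (1 + u ^ 2) ≠ 0 := by positivity
      field_simp
      ring
    simp only [e1]
    have i1 : Integrable (fun u => f u ^ 2 / (1 + u ^ 2) - 2 * (J1 / Real.pi) * (f u / (1 + u ^ 2))) :=
      h2.sub (h1.const_mul _)
    have i2 : Integrable (fun u : ℝ => (J1 / Real.pi) ^ 2 * (1 + u ^ 2)⁻¹) :=
      integrable_inv_one_add_sq.const_mul _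
    rw [integral_add i1 i2, integral_sub h2 (h1.const_mul _), integral_const_mul,
      integral_const_mul, integral_univ_inv_one_add_sq]
  rw [h4] at h3
  have h5 : J2 - 2 * (J1 / Real.pi) * J1 + (J1 / Real.pi) ^ 2 * Real.pi = J2 - J1 ^ 2 / Real.pi := by
    field_simp
    ring
  rw [h5] at h3
  have h6 : J1 ^ 2 / Real.pi ≤ J2 := by linarith
  rw [div_le_iff₀ hpi] at h6
  linarith

theorem pineq_er {η : ℝ} (hη : η ∈ Set.Ioc (0 : ℝ) (1 / 4)) {u : ℝ} (hu : 0 < u) :
    (Real.exp (η * u) - Real.exp (-η * |u|)) * Real.exp (-2 * u) ≤ 8 * η * (1 + u ^ 2)⁻¹ := by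
  have hη0 := hη.1
  have hη1 := hη.2
  rw [abs_of_pos hu]
  have h1 : Real.exp (η * u) - Real.exp (-η * u) ≤ 2 * (η * u) * Real.exp (η * u) := by
    have e1 := Real.add_one_le_exp (-(2 * (η * u)))
    have e2 : Real.exp (-η * u) = Real.exp (η * u) * Real.exp (-(2 * (η * u))) := by
      rw [← Real.exp_add]
      congr 1
      ring
    rw [e2]
    have e3 := Real.exp_pos (η * u)
    nlinarith
  have h2 : u ≤ Real.exp u := by
    have := Real.add_one_le_exp u
    linarith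
  have h3 : Real.exp (η * u) ≤ Real.exp (u / 4) := Real.exp_le_exp.2 (by nlinarith)
  have h4 : 1 + u ^ 2 ≤ 4 * Real.exp (3 / 4 * u) := by
    have := Real.quadratic_le_exp_of_nonneg (by positivity : 0 ≤ 3 / 4 * u)
    nlinarith
  have h5 : 0 < Real.exp (-2 * u) := Real.exp_pos _
  rw [← div_eq_mul_inv, le_div_iff₀ (by positivity)]
  calc (Real.exp (η * u) - Real.exp (-η * u)) * Real.exp (-2 * u) * (1 + u ^ 2)
      ≤ (2 * (η * u) * Real.exp (η * u)) * Real.exp (-2 * u) * (1 + u ^ 2) := by gcongr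
    _ ≤ (2 * (η * Real.exp u) * Real.exp (u / 4)) * Real.exp (-2 * u) *
        (4 * Real.exp (3 / 4 * u)) := by gcongr
    _ = 8 * η * (Real.exp u * Real.exp (u / 4) * Real.exp (-2 * u) * Real.exp (3 / 4 * u)) := by
        ring
    _ = 8 * η := by
        rw [← Real.exp_add, ← Real.exp_add, ← Real.exp_add]
        rw [show u + u / 4 + -2 * u + 3 / 4 * u = 0 by ring, Real.exp_zero, mul_one]

theorem pineq_point {S : Sys m} (k : Kers S) {x : Ix} (hx : x.q.Coprime S.N)
    (hp : x.2.IsPrimitive) {φ : ℝ → ℝ} (hφ : Continuous φ)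
    (hc : HasCompactSupport φ) (h0 : ∀ t, 0 ≤ φ t) {η : ℝ} (hη : η ∈ Set.Ioc (0 : ℝ) (1 / 4))
    {C₁ C₂ : ℝ} {t : ℝ}
    (hk : ∀ u : ℝ, ‖∫ s : ℝ, (((1 - φ s) * (η / (Real.pi * ((t - s) ^ 2 + η ^ 2))) : ℝ) : ℂ) *
        cexp (s * u * I)‖ ≤ C₁ * η / (1 + u ^ 2))
    (hC₂ : 0 ≤ C₂) (hd : ∀ u : ℝ, ‖Dx k x u‖ ≤ C₂ * Real.exp (-2 * u)) :
    ‖Hf k x (η + t * I)‖ ≤ (∫ s : ℝ, φ s * pineq_P η t s * ‖Hf k x (s * I)‖) +
      η * (C₁ * (∫ u : ℝ, ‖Dx k x u‖ / (1 + u ^ 2)) + 8 * C₂ * Real.pi) := by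
  have hη0 : 0 < η := hη.1
  have hpi := Real.pi_pos
  have hcD := pineq_cont k x
  have hPc : Continuous (pineq_P η t) :=
    (pineq_P_cont hη0).comp (by fun_prop : Continuous fun s : ℝ => (t, s))
  have hexpn : ∀ s u : ℝ, ‖cexp (s * u * I)‖ = 1 := fun s u => by
    rw [← Complex.ofReal_mul, Complex.norm_exp_ofReal_mul_I]
  set k0 : ℝ → ℂ := fun u => ∫ s : ℝ, ((φ s * pineq_P η t s : ℝ) : ℂ) * cexp (s * u * I) with hk0
  set k1 : ℝ → ℂ := fun u => ∫ s : ℝ, (((1 - φ s) * pineq_P η t s : ℝ) : ℂ) * cexp (s * u * I)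
    with hk1
  have hφP : Integrable (fun s => φ s * pineq_P η t s) :=
    (hφ.mul hPc).integrable_of_hasCompactSupport hc.mul_right
  have hexpi : ∀ (f : ℝ → ℝ), Integrable f → ∀ u : ℝ,
      Integrable (fun s : ℝ => ((f s : ℝ) : ℂ) * cexp (s * u * I)) := by
    intro f hf u
    refine hf.ofReal.mul_bdd (c := 1) ?_ ?_
    · exact (by fun_prop : Continuous fun s : ℝ => cexp (s * u * I)).aestronglyMeasurable
    · exact ae_of_all _ fun s => (hexpn s u).le
  have h1P : Integrable (fun s => (1 - φ s) * pineq_P η t s) := by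
    refine ((pineq_P_int hη0 t).sub hφP).congr (ae_of_all _ fun s => ?_)
    simp only [Pi.sub_apply]
    ring
  have hsum : ∀ u : ℝ, k0 u + k1 u = cexp (t * u * I) * Real.exp (-η * |u|) := by
    intro u
    rw [← poisson_ft_pr hη0 t u, hk0, hk1]
    simp only
    rw [← integral_add (hexpi _ hφP u) (hexpi _ h1P u)]
    refine integral_congr_ae (ae_of_all _ fun s => ?_)
    simp only [pineq_P]
    push_cast
    ring
  have hk1b : ∀ u : ℝ, ‖k1 u‖ ≤ C₁ * η / (1 + u ^ 2) := hk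
  have hk0b : ∀ u : ℝ, ‖k0 u‖ ≤ ∫ s, φ s * pineq_P η t s := by
    intro u
    refine (norm_integral_le_integral_norm _).trans (le_of_eq ?_)
    refine integral_congr_ae (ae_of_all _ fun s => ?_)
    simp only
    rw [norm_mul, hexpn, mul_one, Complex.norm_real, Real.norm_eq_abs, abs_of_nonneg]
    exact mul_nonneg (h0 s) (pineq_P_pos hη0 t s).le
  have hk0c : Continuous k0 := by
    rw [hk0]
    refine continuous_of_dominated (bound := fun s => φ s * pineq_P η t s) ?_ ?_ hφP ?_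
    · intro u
      exact (hexpi _ hφP u).aestronglyMeasurable
    · intro u
      refine ae_of_all _ fun s => ?_
      rw [norm_mul, hexpn, mul_one, Complex.norm_real, Real.norm_eq_abs, abs_of_nonneg]
      exact mul_nonneg (h0 s) (pineq_P_pos hη0 t s).le
    · exact ae_of_all _ fun s => by fun_prop
  have hk1c : Continuous k1 := by
    have : k1 = fun u : ℝ => cexp (t * u * I) * Real.exp (-η * |u|) - k0 u := by
      ext u
      rw [← hsum u]
      ring
    rw [this]
    fun_prop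
  -- integrability of the density
  have hDi : Integrable (Dx k x) := by
    have := pineq_int k hx hp 0
    simpa using this
  have hD0 : Integrable (fun u => Dx k x u * k0 u) :=
    hDi.mul_bdd hk0c.aestronglyMeasurable (ae_of_all _ hk0b)
  obtain ⟨C', hC'0, hC'⟩ := pineq_dec k hx hp 0
  have hDn : Integrable (fun u => ‖Dx k x u‖ / (1 + u ^ 2)) := by
    refine Integrable.mono' (g := fun u => ‖Dx k x u‖) hDi.norm ?_ ?_
    · exact (Continuous.div hcD.norm (by fun_prop) fun u => by positivity).aestronglyMeasurable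
    · refine ae_of_all _ fun u => ?_
      rw [norm_div, norm_norm, Real.norm_eq_abs, abs_of_pos (by positivity)]
      apply div_le_self (norm_nonneg _)
      nlinarith [sq_nonneg u]
  have hD1 : Integrable (fun u => Dx k x u * k1 u) := by
    refine Integrable.mono' (g := fun u => C₁ * η * (‖Dx k x u‖ / (1 + u ^ 2)))
      (hDn.const_mul _) (hcD.mul hk1c).aestronglyMeasurable ?_
    refine ae_of_all _ fun u => ?_
    rw [norm_mul]
    calc ‖Dx k x u‖ * ‖k1 u‖ ≤ ‖Dx k x u‖ * (C₁ * η / (1 + u ^ 2)) := by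
          gcongr
          exact hk1b u
      _ = _ := by ring
  -- the third part
  set r : ℝ → ℂ := fun u => Dx k x u * (cexp ((η + t * I) * u) -
    cexp (t * u * I) * Real.exp (-η * |u|)) with hr
  have hr_le : ∀ u : ℝ, ‖r u‖ ≤ 8 * C₂ * η * (1 + u ^ 2)⁻¹ := by
    intro u
    have e1 : cexp ((η + t * I) * u) = cexp (t * u * I) * ((Real.exp (η * u) : ℝ) : ℂ) := by
      rw [Complex.ofReal_exp, ← Complex.exp_add]
      congr 1
      push_cast
      ring
    have e2 : r u = Dx k x u * (cexp (t * u * I) *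
        ((Real.exp (η * u) - Real.exp (-η * |u|) : ℝ) : ℂ)) := by
      rw [hr]
      simp only
      rw [e1]
      push_cast
      ring
    rw [e2, norm_mul, norm_mul, hexpn, one_mul, Complex.norm_real, Real.norm_eq_abs]
    rcases le_or_gt u 0 with hu | hu
    · rw [abs_of_nonpos hu]
      rw [show -η * -u = η * u by ring, sub_self, abs_zero, mul_zero]
      positivity
    · have e3 : 0 ≤ Real.exp (η * u) - Real.exp (-η * |u|) := by
        rw [abs_of_pos hu, sub_nonneg]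
        exact Real.exp_le_exp.2 (by nlinarith)
      rw [abs_of_nonneg e3]
      calc ‖Dx k x u‖ * (Real.exp (η * u) - Real.exp (-η * |u|))
          ≤ C₂ * Real.exp (-2 * u) * (Real.exp (η * u) - Real.exp (-η * |u|)) := by
            gcongr
            exact hd u
        _ = C₂ * ((Real.exp (η * u) - Real.exp (-η * |u|)) * Real.exp (-2 * u)) := by ring
        _ ≤ C₂ * (8 * η * (1 + u ^ 2)⁻¹) := mul_le_mul_of_nonneg_left (pineq_er hη hu) hC₂
        _ = _ := by ring
  have hrc : Continuous r := by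
    rw [hr]
    fun_prop
  have hri : Integrable r := Integrable.mono' (integrable_inv_one_add_sq.const_mul (8 * C₂ * η))
    hrc.aestronglyMeasurable (ae_of_all _ hr_le)
  have hmain : Hf k x (η + t * I) = (∫ u, Dx k x u * k0 u) + (∫ u, Dx k x u * k1 u) + ∫ u, r u := by
    have i3 : Integrable (fun u => Dx k x u * k0 u + Dx k x u * k1 u) := hD0.add hD1
    rw [← integral_add hD0 hD1, ← integral_add i3 hri, Hf]
    refine integral_congr_ae (ae_of_all _ fun u => ?_)
    simp only [hr, Pi.add_apply]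
    have := hsum u
    linear_combination (-Dx k x u) * this
  -- Fubini
  have hfub : ∫ u, Dx k x u * k0 u =
      ∫ s : ℝ, ((φ s * pineq_P η t s : ℝ) : ℂ) * Hf k x (s * I) := by
    have e1 : ∀ u : ℝ, Dx k x u * k0 u =
        ∫ s : ℝ, Dx k x u * (((φ s * pineq_P η t s : ℝ) : ℂ) * cexp (s * u * I)) := by
      intro u
      rw [hk0, integral_const_mul]
    simp only [e1]
    rw [integral_integral_swap]
    · refine integral_congr_ae (ae_of_all _ fun s => ?_)
      simp only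
      rw [Hf, ← integral_const_mul]
      refine integral_congr_ae (ae_of_all _ fun u => ?_)
      simp only
      rw [show (s : ℂ) * I * u = s * u * I by ring]
      ring
    · have h2 := hDi.mul_prod (hφP.ofReal (𝕜 := ℂ))
      refine h2.mono ?_ ?_
      · refine Continuous.aestronglyMeasurable ?_
        have : (Function.uncurry fun u s : ℝ =>
            Dx k x u * (((φ s * pineq_P η t s : ℝ) : ℂ) * cexp (s * u * I))) =
            fun p : ℝ × ℝ => Dx k x p.1 *
              (((φ p.2 * pineq_P η t p.2 : ℝ) : ℂ) * cexp (p.2 * p.1 * I)) := by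
          ext p
          rfl
        rw [this]
        fun_prop
      · refine ae_of_all _ fun p => ?_
        show ‖Dx k x p.1 * (((φ p.2 * pineq_P η t p.2 : ℝ) : ℂ) * cexp (p.2 * p.1 * I))‖ ≤
          ‖Dx k x p.1 * ((φ p.2 * pineq_P η t p.2 : ℝ) : ℂ)‖
        rw [norm_mul, norm_mul, norm_mul, hexpn, mul_one]
  rw [hmain, hfub]
  have b1 : ‖∫ s : ℝ, ((φ s * pineq_P η t s : ℝ) : ℂ) * Hf k x (s * I)‖ ≤
      ∫ s : ℝ, φ s * pineq_P η t s * ‖Hf k x (s * I)‖ := by
    refine (norm_integral_le_integral_norm _).trans (le_of_eq ?_)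
    refine integral_congr_ae (ae_of_all _ fun s => ?_)
    simp only
    rw [norm_mul, Complex.norm_real, Real.norm_eq_abs, abs_of_nonneg]
    exact mul_nonneg (h0 s) (pineq_P_pos hη0 t s).le
  have b2 : ‖∫ u, Dx k x u * k1 u‖ ≤ η * (C₁ * ∫ u : ℝ, ‖Dx k x u‖ / (1 + u ^ 2)) := by
    calc ‖∫ u, Dx k x u * k1 u‖ ≤ ∫ u, ‖Dx k x u * k1 u‖ := norm_integral_le_integral_norm _
      _ ≤ ∫ u, C₁ * η * (‖Dx k x u‖ / (1 + u ^ 2)) := by
          refine integral_mono hD1.norm (hDn.const_mul _) fun u => ?_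
          simp only
          rw [norm_mul]
          calc ‖Dx k x u‖ * ‖k1 u‖ ≤ ‖Dx k x u‖ * (C₁ * η / (1 + u ^ 2)) := by
                gcongr
                exact hk1b u
            _ = _ := by ring
      _ = _ := by
          rw [integral_const_mul]
          ring
  have b3 : ‖∫ u, r u‖ ≤ η * (8 * C₂ * Real.pi) := by
    calc ‖∫ u, r u‖ ≤ ∫ u, ‖r u‖ := norm_integral_le_integral_norm _
      _ ≤ ∫ u : ℝ, 8 * C₂ * η * (1 + u ^ 2)⁻¹ :=
          integral_mono hri.norm (integrable_inv_one_add_sq.const_mul _) hr_le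
      _ = _ := by
          rw [integral_const_mul, integral_univ_inv_one_add_sq]
          ring
  have b4 := norm_add_le ((∫ s : ℝ, ((φ s * pineq_P η t s : ℝ) : ℂ) * Hf k x (s * I)) +
    (∫ u, Dx k x u * k1 u)) (∫ u, r u)
  have b5 := norm_add_le (∫ s : ℝ, ((φ s * pineq_P η t s : ℝ) : ℂ) * Hf k x (s * I))
    (∫ u, Dx k x u * k1 u)
  rw [mul_add]
  linarith

theorem pineq_pr {S : Sys m} (hm : m ≤ 4) (k : Kers S) {φ : ℝ → ℝ} (hφ : ContDiff ℝ 2 φ)
    (hc : HasCompactSupport φ) (h0 : ∀ t, 0 ≤ φ t) {α₁ β₁ α₂ β₂ : ℝ}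
    (h1 : ∀ t ∈ Set.Icc α₁ β₁, φ t = 1) (hα : α₁ < α₂) (hαβ : α₂ ≤ β₂) (hβ : β₂ < β₁) :
    ∃ C : ℝ, 0 ≤ C ∧ ∀ η ∈ Set.Ioc (0 : ℝ) (1 / 4), ∀ Q : ℕ, ∃ E : Ix → ℝ,
      (∀ x ∈ pairs S.N Q, 0 ≤ E x ∧ ∫ t in α₂..β₂, ‖Hf k x (η + t * I)‖ ≤
        (∫ t : ℝ, φ t * ‖Hf k x (t * I)‖) + η * E x) ∧
      ∑ x ∈ pairs S.N Q, E x ^ 2 ≤ C * Q ^ 2 := by
  obtain ⟨C₁, hC₁, hkt⟩ := kt_bound_pr hφ hc h1 hα hβ
  obtain ⟨C₃, hC₃, hmsw⟩ := msw_pr hm k
  obtain ⟨Cb, hCb⟩ := S.rs
  obtain ⟨A0, hA0, hb0⟩ := db_bound_pr k.κ_pos (k.isKer 0) Cb (A := 2) (by norm_num)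
  obtain ⟨A1, hA1, hb1⟩ := db_bound_pr k.κ_pos (k.isKer 1) Cb (A := 2) (by norm_num)
  set C₂ : ℝ := A0 + A1 with hC₂
  have hC₂0 : 0 ≤ C₂ := by positivity
  have hd : ∀ (x : Ix) (u : ℝ), ‖Dx k x u‖ ≤ C₂ * Real.exp (-2 * u) := by
    intro x u
    have hex : 0 ≤ Real.exp (-2 * u) := (Real.exp_pos _).le
    unfold Dx
    have h2 : ∀ i : Fin 2, i = 0 ∨ i = 1 := by decide
    rcases h2 (par x.2) with h | h
    · rw [h]
      refine (hb0 S.a hCb x u).trans ?_
      exact mul_le_mul_of_nonneg_right (by linarith) hex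
    · rw [h]
      refine (hb1 S.a hCb x u).trans ?_
      exact mul_le_mul_of_nonneg_right (by linarith) hex
  have hpi := Real.pi_pos
  have hβα : 0 ≤ β₂ - α₂ := by linarith
  set Jx : Ix → ℝ := fun x => ∫ u : ℝ, ‖Dx k x u‖ / (1 + u ^ 2) with hJx
  refine ⟨(β₂ - α₂) ^ 2 * (2 * (C₁ ^ 2 * (Real.pi * C₃) + (8 * C₂ * Real.pi) ^ 2)), by positivity,
    fun η hη Q => ⟨fun x => (β₂ - α₂) * (C₁ * Jx x + 8 * C₂ * Real.pi), ?_, ?_⟩⟩
  · intro x hx
    obtain ⟨hxN, hxp⟩ := pineq_mem hx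
    have hJ0 : 0 ≤ Jx x := integral_nonneg fun u => by positivity
    refine ⟨by positivity, ?_⟩
    have hη0 : 0 < η := hη.1
    have hηI : η ∈ Set.Ioc (0 : ℝ) 1 := ⟨hη.1, hη.2.trans (by norm_num)⟩
    have hcH := pineq_Hf_cont k hxN hxp η
    have hcH0 := pineq_Hf0_cont k hxN hxp
    have hpt : ∀ t ∈ Set.Icc α₂ β₂, ‖Hf k x (η + t * I)‖ ≤
        (∫ s : ℝ, φ s * pineq_P η t s * ‖Hf k x (s * I)‖) +
          η * (C₁ * Jx x + 8 * C₂ * Real.pi) := by
      intro t ht
      exact pineq_point k hxN hxp hφ.continuous hc h0 hη (hkt η hηI t ht) hC₂0 (hd x)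
    have hcI : Continuous fun t : ℝ => ∫ s : ℝ, φ s * pineq_P η t s * ‖Hf k x (s * I)‖ := by
      have hφc := hφ.continuous
      have hi : Integrable fun s : ℝ => φ s * ‖Hf k x (s * I)‖ :=
        (hφc.mul hcH0.norm).integrable_of_hasCompactSupport hc.mul_right
      have hP := pineq_P_cont hη0
      refine continuous_of_dominated
        (bound := fun s => 1 / (Real.pi * η) * (φ s * ‖Hf k x (s * I)‖)) ?_ ?_ (hi.const_mul _) ?_
      · intro t
        have hP2 : Continuous (pineq_P η t) :=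
          hP.comp (by fun_prop : Continuous fun s : ℝ => (t, s))
        exact ((hφc.mul hP2).mul hcH0.norm).aestronglyMeasurable
      · intro t
        refine ae_of_all _ fun s => ?_
        have e1 := pineq_P_pos hη0 t s
        have e2 := pineq_P_le hη0 t s
        have e3 := h0 s
        rw [Real.norm_eq_abs, abs_of_nonneg (by positivity)]
        calc φ s * pineq_P η t s * ‖Hf k x (s * I)‖ = pineq_P η t s * (φ s * ‖Hf k x (s * I)‖) := by
              ring
          _ ≤ 1 / (Real.pi * η) * (φ s * ‖Hf k x (s * I)‖) := by gcongr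
      · refine ae_of_all _ fun s => ?_
        have hP2 : Continuous (fun t => pineq_P η t s) :=
          hP.comp (by fun_prop : Continuous fun t : ℝ => (t, s))
        fun_prop
    have havg := pineq_avg hφ.continuous hc h0 hcH0.norm (fun t => norm_nonneg _) hη0 hαβ
    calc ∫ t in α₂..β₂, ‖Hf k x (η + t * I)‖
        ≤ ∫ t in α₂..β₂, ((∫ s : ℝ, φ s * pineq_P η t s * ‖Hf k x (s * I)‖) +
          η * (C₁ * Jx x + 8 * C₂ * Real.pi)) := by
          refine intervalIntegral.integral_mono_on hαβ (hcH.norm.intervalIntegrable _ _) ?_ hpt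
          exact (hcI.add continuous_const).intervalIntegrable _ _
      _ = (∫ t in α₂..β₂, ∫ s : ℝ, φ s * pineq_P η t s * ‖Hf k x (s * I)‖) +
          (β₂ - α₂) * (η * (C₁ * Jx x + 8 * C₂ * Real.pi)) := by
          rw [intervalIntegral.integral_add (hcI.intervalIntegrable _ _)
            (continuous_const.intervalIntegrable _ _), intervalIntegral.integral_const, smul_eq_mul]
      _ ≤ (∫ t : ℝ, φ t * ‖Hf k x (t * I)‖) +
          (β₂ - α₂) * (η * (C₁ * Jx x + 8 * C₂ * Real.pi)) := by gcongr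
      _ = _ := by ring
  · have hJ2 : ∀ x ∈ pairs S.N Q, Jx x ^ 2 ≤
        Real.pi * ∫ u : ℝ, ‖Dx k x u‖ ^ 2 / (1 + u ^ 2) := by
      intro x hx
      obtain ⟨hxN, hxp⟩ := pineq_mem hx
      obtain ⟨C', hC'0, hC'⟩ := pineq_dec k hxN hxp 0
      have hcD := pineq_cont k x
      have hb : ∀ u, ‖Dx k x u‖ ≤ C' := by
        intro u
        have e1 := hC' u
        rw [zero_mul, Real.exp_zero, mul_one] at e1
        refine e1.trans ?_
        have e2 : (1 + u ^ 2)⁻¹ ≤ 1 := inv_le_one_of_one_le₀ (by nlinarith [sq_nonneg u])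
        calc C' * (1 + u ^ 2)⁻¹ ≤ C' * 1 := by gcongr
          _ = C' := mul_one _
      refine pineq_cs (f := fun u => ‖Dx k x u‖) ?_ ?_
      · refine Integrable.mono' (g := fun u => C' * (1 + u ^ 2)⁻¹)
          (integrable_inv_one_add_sq.const_mul _) ?_ ?_
        · exact (Continuous.div hcD.norm (by fun_prop) fun u => by positivity).aestronglyMeasurable
        · refine ae_of_all _ fun u => ?_
          rw [norm_div, norm_norm, Real.norm_eq_abs, abs_of_pos (by positivity), div_eq_mul_inv]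
          have := hb u
          gcongr
      · refine Integrable.mono' (g := fun u => C' ^ 2 * (1 + u ^ 2)⁻¹)
          (integrable_inv_one_add_sq.const_mul _) ?_ ?_
        · exact (Continuous.div (hcD.norm.pow 2) (by fun_prop)
            fun u => by positivity).aestronglyMeasurable
        · refine ae_of_all _ fun u => ?_
          rw [norm_div, norm_pow, norm_norm, Real.norm_eq_abs, abs_of_pos (by positivity),
            div_eq_mul_inv]
          have := hb u
          gcongr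
    have hE : ∀ x ∈ pairs S.N Q, ((β₂ - α₂) * (C₁ * Jx x + 8 * C₂ * Real.pi)) ^ 2 ≤
        (β₂ - α₂) ^ 2 * (2 * (C₁ ^ 2 * (Real.pi * ∫ u : ℝ, ‖Dx k x u‖ ^ 2 / (1 + u ^ 2)) +
          (8 * C₂ * Real.pi) ^ 2)) := by
      intro x hx
      have e1 := hJ2 x hx
      rw [mul_pow]
      refine mul_le_mul_of_nonneg_left ?_ (sq_nonneg _)
      have e2 : (C₁ * Jx x + 8 * C₂ * Real.pi) ^ 2 ≤
          2 * (C₁ ^ 2 * Jx x ^ 2 + (8 * C₂ * Real.pi) ^ 2) := by
        nlinarith [sq_nonneg (C₁ * Jx x - 8 * C₂ * Real.pi)]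
      refine e2.trans ?_
      have e3 : C₁ ^ 2 * Jx x ^ 2 ≤ C₁ ^ 2 *
          (Real.pi * ∫ u : ℝ, ‖Dx k x u‖ ^ 2 / (1 + u ^ 2)) :=
        mul_le_mul_of_nonneg_left e1 (sq_nonneg _)
      linarith
    refine (Finset.sum_le_sum hE).trans ?_
    rw [← Finset.mul_sum, ← Finset.mul_sum, Finset.sum_add_distrib, ← Finset.mul_sum,
      ← Finset.mul_sum, Finset.sum_const, nsmul_eq_mul]
    have e1 := hmsw Q
    have e2 := pineq_card S.N Q
    calc (β₂ - α₂) ^ 2 * (2 * (C₁ ^ 2 * (Real.pi * ∑ x ∈ pairs S.N Q,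
          ∫ u : ℝ, ‖Dx k x u‖ ^ 2 / (1 + u ^ 2)) + ((pairs S.N Q).card : ℝ) * (8 * C₂ * Real.pi) ^ 2))
        ≤ (β₂ - α₂) ^ 2 * (2 * (C₁ ^ 2 * (Real.pi * (C₃ * Q ^ 2)) +
          (Q : ℝ) ^ 2 * (8 * C₂ * Real.pi) ^ 2)) := by gcongr
      _ = _ := by ring

end Pool.Agent.G4
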