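import Pool.Agent.Lib_helper44.G4.Defs
import Pool.Agent.Lib_helper93.G4.ORTH

/-! Block YT: the higher prime powers. -/

namespace Pool.Agent.G4

open Complex MeasureTheory Filter Topology

variable {m : ℕ}

/-- the coefficient of `z` -/
theorem yt_coeff (S : Sys m) {p : ℕ} (hp : p.Prime) : ∑ j, S.α p j = S.a p := by
  have hp0 : (0 : ℝ) < √(p : ℝ) := Real.sqrt_pos.2 (by exact_mod_cast hp.pos)
  set F : ℂ → ℂ := fun z => (∏ j, (1 - S.α p j * z))⁻¹ with hF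
  have h1 : HasFPowerSeriesAt F
      (FormalMultilinearSeries.ofScalars ℂ (fun k => S.a (p ^ k))) 0 := by
    rw [hasFPowerSeriesAt_iff]
    have : ∀ᶠ z : ℂ in 𝓝 0, ‖z‖ < (√(p : ℝ))⁻¹ := by
      have := Metric.ball_mem_nhds (0 : ℂ) (inv_pos.2 hp0)
      filter_upwards [this] with z hz
      simpa using hz
    filter_upwards [this] with z hz
    have h2 := S.euler p hp z hz.le
    rw [zero_add]
    refine h2.congr_fun ?_
    intro k
    rw [FormalMultilinearSeries.coeff_ofScalars, smul_eq_mul, mul_comm]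
  have h2 := h1.hasDerivAt
  have h3 : HasDerivAt F (∑ j, S.α p j) 0 := by
    have e1 : ∀ j ∈ (Finset.univ : Finset (Fin m)),
        HasDerivAt (fun z : ℂ => 1 - S.α p j * z) (-S.α p j) 0 := by
      intro j _
      have := ((hasDerivAt_id (0 : ℂ)).const_mul (S.α p j)).const_sub 1
      simpa using this
    have e2 := HasDerivAt.fun_finsetProd e1
    have e3 := e2.inv (by simp)
    refine e3.congr_deriv ?_
    simp
  have h4 := h3.unique h2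
  rw [h4]
  have h5 : (FormalMultilinearSeries.ofScalars ℂ (fun k => S.a (p ^ k)) 1 fun _ => (1 : ℂ)) =
      (FormalMultilinearSeries.ofScalars ℂ (fun k => S.a (p ^ k))).coeff 1 := rfl
  rw [h5, FormalMultilinearSeries.coeff_ofScalars, pow_one]

theorem yt_ev_pow (x : Ix) (n k : ℕ) : ev x (n ^ k) = ev x n ^ k := by
  unfold ev
  rw [Nat.cast_pow, map_pow]

theorem yt_ev_one (x : Ix) : ev x 1 = 1 := by
  unfold ev
  rw [Nat.cast_one, map_one]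

theorem yt_ev_norm (x : Ix) (n : ℕ) : ‖ev x n‖ ≤ 1 := by
  unfold ev
  exact DirichletCharacter.norm_le_one _ _

theorem yt_s_norm {p : ℕ} (hp : p.Prime) {η : ℝ} (hη : 0 ≤ η) (t : ℝ) :
    ‖(p : ℂ) ^ (-(1 / 2 + η + t * I : ℂ))‖ ≤ (√(p : ℝ))⁻¹ := by
  have hp0 : (0 : ℝ) < p := by exact_mod_cast hp.pos
  have hp1 : (1 : ℝ) ≤ p := by exact_mod_cast hp.one_lt.le
  rw [show (p : ℂ) = ((p : ℝ) : ℂ) by push_cast; rfl, Complex.norm_cpow_eq_rpow_re_of_pos hp0]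
  have h1 : (-(1 / 2 + η + t * I : ℂ)).re = -(1 / 2 + η) := by simp
  rw [h1, Real.sqrt_eq_rpow, ← Real.rpow_neg hp0.le]
  apply Real.rpow_le_rpow_of_exponent_le hp1
  linarith

theorem yt_z_norm {p : ℕ} (hp : p.Prime) (x : Ix) {η : ℝ} (hη : 0 ≤ η) (t : ℝ) :
    ‖ev x p * (p : ℂ) ^ (-(1 / 2 + η + t * I : ℂ))‖ ≤ (√(p : ℝ))⁻¹ := by
  rw [norm_mul]
  calc ‖ev x p‖ * ‖(p : ℂ) ^ (-(1 / 2 + η + t * I : ℂ))‖ ≤ 1 * (√(p : ℝ))⁻¹ :=
        mul_le_mul (yt_ev_norm x p) (yt_s_norm hp hη t) (norm_nonneg _) zero_le_one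
    _ = (√(p : ℝ))⁻¹ := one_mul _

theorem yt_lt_one (S : Sys m) {p : ℕ} (hp : p.Prime) (j : Fin m) {z : ℂ}
    (hz : ‖z‖ ≤ (√(p : ℝ))⁻¹) : ‖S.α p j * z‖ < 1 := by
  have hp0 : (0 : ℝ) < √(p : ℝ) := Real.sqrt_pos.2 (by exact_mod_cast hp.pos)
  rw [norm_mul]
  calc ‖S.α p j‖ * ‖z‖ ≤ ‖S.α p j‖ * (√(p : ℝ))⁻¹ := by gcongr
    _ < √(p : ℝ) * (√(p : ℝ))⁻¹ := by
        have := S.α_lt p hp j
        exact mul_lt_mul_of_pos_right this (inv_pos.2 hp0)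
    _ = 1 := mul_inv_cancel₀ hp0.ne'

theorem yt_ne (S : Sys m) {p : ℕ} (hp : p.Prime) (j : Fin m) {z : ℂ}
    (hz : ‖z‖ ≤ (√(p : ℝ))⁻¹) : 1 - S.α p j * z ≠ 0 := by
  intro h
  have h1 := yt_lt_one S hp j hz
  have h2 : S.α p j * z = 1 := by linear_combination -h
  rw [h2, norm_one] at h1
  exact lt_irrefl _ h1

/-- the coefficients of the logarithm -/
noncomputable def yt_cf (S : Sys m) (p k : ℕ) : ℂ := (∑ j, S.α p j ^ (k + 2)) / ((k : ℂ) + 2)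

theorem yt_log (S : Sys m) {p : ℕ} (hp : p.Prime) {z : ℂ} (hz : ‖z‖ ≤ (√(p : ℝ))⁻¹) :
    HasSum (fun k : ℕ => yt_cf S p k * z ^ (k + 2))
      ((∑ j, -Complex.log (1 - S.α p j * z)) - S.a p * z) := by
  have h1 : ∀ j ∈ (Finset.univ : Finset (Fin m)), HasSum
      (fun k : ℕ => (S.α p j * z) ^ (k + 1) / ((k : ℂ) + 1)) (-Complex.log (1 - S.α p j * z)) :=
    fun j _ => Complex.hasSum_taylorSeries_neg_log' (yt_lt_one S hp j hz)
  have h2 := hasSum_sum h1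
  have h3 := (hasSum_nat_add_iff' (f := fun k : ℕ => ∑ j, (S.α p j * z) ^ (k + 1) / ((k : ℂ) + 1))
    1).2 h2
  have h4 : ∑ i ∈ Finset.range 1, ∑ j, (S.α p j * z) ^ (i + 1) / ((i : ℂ) + 1) = S.a p * z := by
    rw [Finset.sum_range_one, ← yt_coeff S hp, Finset.sum_mul]
    refine Finset.sum_congr rfl fun j _ => ?_
    simp
  rw [h4] at h3
  refine h3.congr_fun ?_
  intro k
  rw [yt_cf, Finset.sum_div, Finset.sum_mul]
  refine Finset.sum_congr rfl fun j _ => ?_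
  push_cast
  ring

theorem yt_re_log (S : Sys m) {p : ℕ} (hp : p.Prime) {z : ℂ} (hz : ‖z‖ ≤ (√(p : ℝ))⁻¹) :
    (∑ j, -Complex.log (1 - S.α p j * z)).re = Real.log ‖(∏ j, (1 - S.α p j * z))⁻¹‖ := by
  rw [norm_inv, Real.log_inv, norm_prod, Real.log_prod]
  · rw [Complex.re_sum, ← Finset.sum_neg_distrib]
    refine Finset.sum_congr rfl fun j _ => ?_
    rw [Complex.neg_re, Complex.log_re]
  · intro j _
    exact norm_ne_zero_iff.2 (yt_ne S hp j hz)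

theorem yt_geom (S : Sys m) {p : ℕ} (hp : p.Prime) :
    Summable fun k : ℕ => ‖∑ j, S.α p j ^ (k + 2)‖ / √(p : ℝ) ^ (k + 2) := by
  have hp0 : (0 : ℝ) < √(p : ℝ) := Real.sqrt_pos.2 (by exact_mod_cast hp.pos)
  have h1 : Summable fun k : ℕ => ∑ j, (‖S.α p j‖ / √(p : ℝ)) ^ (k + 2) := by
    refine summable_sum fun j _ => ?_
    have h2 : ‖S.α p j‖ / √(p : ℝ) < 1 := (div_lt_one hp0).2 (S.α_lt p hp j)
    exact (summable_nat_add_iff 2).2 (summable_geometric_of_lt_one (by positivity) h2)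
  refine Summable.of_nonneg_of_le (fun k => by positivity) (fun k => ?_) h1
  rw [div_le_iff₀ (by positivity), Finset.sum_mul]
  refine norm_sum_le_of_le _ fun j _ => ?_
  rw [norm_pow, div_pow, div_mul_cancel₀]
  exact (pow_pos hp0 _).ne'

/-- the index type -/
abbrev YtI (P : ℕ) : Type := (Nat.primesBelow (P + 1)) × ℕ

theorem yt_prime {P : ℕ} (p : Nat.primesBelow (P + 1)) : (p : ℕ).Prime :=
  (Nat.mem_primesBelow.1 p.2).2

noncomputable def yt_b (S : Sys m) (P : ℕ) (i : YtI P) : ℝ :=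
  ‖∑ j, S.α i.1 j ^ (i.2 + 2)‖ / √((i.1 : ℕ) : ℝ) ^ (i.2 + 2)

theorem yt_b_nonneg (S : Sys m) (P : ℕ) (i : YtI P) : 0 ≤ yt_b S P i := by
  unfold yt_b
  positivity

theorem yt_b_summable (S : Sys m) (P : ℕ) : Summable (yt_b S P) := by
  rw [summable_prod_of_nonneg (yt_b_nonneg S P)]
  refine ⟨fun p => ?_, Summable.of_finite⟩
  have h := yt_geom S (p := (p : ℕ)) (yt_prime p)
  refine h.congr fun k => ?_
  rw [yt_b]

theorem yt_b_sq (S : Sys m) (P : ℕ) : ∑' i, yt_b S P i ^ 2 ≤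
    ∑' z : Nat.Primes × ℕ, ‖∑ j, S.α z.1 j ^ (z.2 + 2)‖ ^ 2 / (z.1 : ℝ) ^ (z.2 + 2) := by
  have hle : ∀ i : YtI P, yt_b S P i ^ 2 =
      ‖∑ j, S.α i.1 j ^ (i.2 + 2)‖ ^ 2 / ((i.1 : ℕ) : ℝ) ^ (i.2 + 2) := by
    intro i
    rw [yt_b, div_pow, ← pow_mul, mul_comm (i.2 + 2) 2, pow_mul,
      Real.sq_sqrt (Nat.cast_nonneg _)]
  set e : YtI P → Nat.Primes × ℕ := fun i => (⟨i.1, yt_prime i.1⟩, i.2) with he
  have hinj : Function.Injective e := by
    intro i i' h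
    have h1 : (i.1 : ℕ) = (i'.1 : ℕ) := congrArg (fun z : Nat.Primes × ℕ => (z.1 : ℕ)) h
    have h2 : i.2 = i'.2 := congrArg (fun z : Nat.Primes × ℕ => z.2) h
    exact Prod.ext (Subtype.ext h1) h2
  have hs : Summable fun i => yt_b S P i ^ 2 := by
    have := S.hyp.comp_injective hinj
    refine this.congr ?_
    intro i
    rw [hle i]
    rfl
  refine Summable.tsum_le_tsum_of_inj e hinj (fun c _ => by positivity) (fun i => ?_) hs S.hyp
  rw [hle i]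

theorem yt_inj {P : ℕ} (i i' : YtI P) (h : (i.1 : ℕ) ^ (i.2 + 2) = (i'.1 : ℕ) ^ (i'.2 + 2)) :
    i = i' := by
  have hp := yt_prime i.1
  have hp' := yt_prime i'.1
  have h1 : (i.1 : ℕ) = i'.1 := by
    have h2 : (i.1 : ℕ) ∣ (i'.1 : ℕ) ^ (i'.2 + 2) := by
      rw [← h]
      exact dvd_pow_self _ (by omega)
    exact (Nat.prime_dvd_prime_iff_eq hp hp').1 (hp.dvd_of_dvd_pow h2)
  rw [h1] at h
  have h3 := Nat.pow_right_injective hp'.two_le h
  refine Prod.ext (Subtype.ext h1) ?_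
  simpa using h3

/-- the coefficients of the Dirichlet series -/
noncomputable def yt_β (S : Sys m) (P : ℕ) (η t : ℝ) (i : YtI P) : ℂ :=
  yt_cf S i.1 i.2 * (((i.1 : ℕ) : ℂ) ^ (-(1 / 2 + η + t * I : ℂ))) ^ (i.2 + 2)

theorem yt_β_norm (S : Sys m) (P : ℕ) {η : ℝ} (hη : 0 ≤ η) (t : ℝ) (i : YtI P) :
    ‖yt_β S P η t i‖ ≤ yt_b S P i := by
  have hp := yt_prime i.1
  rw [yt_β, yt_cf, norm_mul, norm_div, norm_pow, yt_b, div_eq_mul_inv (‖_‖) (√_ ^ _), ← inv_pow]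
  have h1 : ‖((i.2 : ℂ) + 2)‖ = (i.2 : ℝ) + 2 := by
    have : ((i.2 : ℂ) + 2) = (((i.2 : ℝ) + 2 : ℝ) : ℂ) := by push_cast; ring
    rw [this, Complex.norm_real, Real.norm_eq_abs, abs_of_pos (by positivity)]
  have h2 : ‖∑ j, S.α i.1 j ^ (i.2 + 2)‖ / ‖((i.2 : ℂ) + 2)‖ ≤ ‖∑ j, S.α i.1 j ^ (i.2 + 2)‖ := by
    rw [h1]
    apply div_le_self (norm_nonneg _)
    have : (0 : ℝ) ≤ i.2 := Nat.cast_nonneg _
    linarith
  exact mul_le_mul h2 (pow_le_pow_left₀ (norm_nonneg _) (yt_s_norm hp hη t) _) (by positivity)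
    (norm_nonneg _)

theorem yt_term (S : Sys m) (P : ℕ) (η t : ℝ) (x : Ix) (i : YtI P) :
    yt_β S P η t i * ev x ((i.1 : ℕ) ^ (i.2 + 2)) * starRingEnd ℂ (ev x 1) =
      yt_cf S i.1 i.2 * (ev x i.1 * ((i.1 : ℕ) : ℂ) ^ (-(1 / 2 + η + t * I : ℂ))) ^ (i.2 + 2) := by
  rw [yt_ev_pow, yt_ev_one, map_one, mul_one, yt_β, mul_pow]
  ring

theorem yt_Y2 (S : Sys m) (P : ℕ) {η : ℝ} (hη : 0 ≤ η) (x : Ix) (t : ℝ) :
    Y2 S P η x t = (∑' i : YtI P,
      yt_β S P η t i * ev x ((i.1 : ℕ) ^ (i.2 + 2)) * starRingEnd ℂ (ev x 1)).re := by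
  set s : ℂ := 1 / 2 + η + t * I with hs
  have hsum : Summable fun i : YtI P =>
      yt_β S P η t i * ev x ((i.1 : ℕ) ^ (i.2 + 2)) * starRingEnd ℂ (ev x 1) := by
    refine Summable.of_norm_bounded (yt_b_summable S P) fun i => ?_
    rw [yt_ev_one, map_one, mul_one, norm_mul]
    calc ‖yt_β S P η t i‖ * ‖ev x ((i.1 : ℕ) ^ (i.2 + 2))‖ ≤ yt_b S P i * 1 :=
          mul_le_mul (yt_β_norm S P hη t i) (yt_ev_norm x _) (norm_nonneg _) (yt_b_nonneg S P i)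
      _ = yt_b S P i := mul_one _
  have h1 : ∀ p : Nat.primesBelow (P + 1), HasSum (fun k : ℕ =>
      yt_β S P η t (p, k) * ev x (((p, k) : YtI P).1 ^ (((p, k) : YtI P).2 + 2)) *
        starRingEnd ℂ (ev x 1))
      ((∑ j, -Complex.log (1 - S.α p j * (ev x p * ((p : ℕ) : ℂ) ^ (-s)))) -
        S.a p * (ev x p * ((p : ℕ) : ℂ) ^ (-s))) := by
    intro p
    have h2 := yt_log S (yt_prime p) (yt_z_norm (yt_prime p) x hη t)
    refine h2.congr_fun ?_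
    intro k
    rw [yt_term S P η t x (p, k)]
  rw [hsum.tsum_prod' (fun p => (h1 p).summable), tsum_fintype]
  rw [Finset.sum_congr rfl (fun p _ => (h1 p).tsum_eq), Complex.re_sum]
  have h3 : ∀ p : Nat.primesBelow (P + 1),
      ((∑ j, -Complex.log (1 - S.α p j * (ev x p * ((p : ℕ) : ℂ) ^ (-s)))) -
        S.a p * (ev x p * ((p : ℕ) : ℂ) ^ (-s))).re =
      Real.log ‖(∏ j, (1 - S.α p j * (ev x p * ((p : ℕ) : ℂ) ^ (-s))))⁻¹‖ -
        (S.a p * ev x p * ((p : ℕ) : ℂ) ^ (-s)).re := by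
    intro p
    rw [Complex.sub_re, yt_re_log S (yt_prime p) (yt_z_norm (yt_prime p) x hη t), mul_assoc]
  rw [Finset.sum_congr rfl (fun p _ => h3 p), Finset.sum_sub_distrib]
  rw [Y2, LP, Xs, norm_prod, Real.log_prod, Complex.re_sum]
  · rw [← Finset.sum_coe_sort (Nat.primesBelow (P + 1))
      (fun p => Real.log ‖(∏ j, (1 - S.α p j * (ev x p * (p : ℂ) ^ (-s))))⁻¹‖),
      ← Finset.sum_coe_sort (Nat.primesBelow (P + 1))
      (fun p => (S.a p * ev x p * (p : ℂ) ^ (-s)).re)]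
  · intro p hp
    have hp' : p.Prime := (Nat.mem_primesBelow.1 hp).2
    rw [norm_ne_zero_iff]
    refine inv_ne_zero (Finset.prod_ne_zero_iff.2 fun j _ => ?_)
    exact yt_ne S hp' j (yt_z_norm hp' x hη t)

theorem yt_cont (S : Sys m) (P : ℕ) {η : ℝ} (hη : 0 ≤ η) (x : Ix) : Continuous (Y2 S P η x) := by
  have hpc : ∀ p : ℕ, p.Prime → Continuous fun t : ℝ => (p : ℂ) ^ (-(1 / 2 + η + t * I : ℂ)) := by
    intro p hp
    have hp2 : (p : ℂ) ≠ 0 := by exact_mod_cast hp.pos.ne'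
    exact Continuous.const_cpow (by fun_prop) (Or.inl hp2)
  have hX : Continuous (Xs S P η x) := by
    unfold Xs
    refine Complex.continuous_re.comp (continuous_finsetSum _ fun p hp => ?_)
    exact continuous_const.mul (hpc p (Nat.mem_primesBelow.1 hp).2)
  have hne : ∀ t : ℝ, LP S P x (1 / 2 + η + t * I) ≠ 0 := by
    intro t
    unfold LP
    refine Finset.prod_ne_zero_iff.2 fun p hp => inv_ne_zero (Finset.prod_ne_zero_iff.2 fun j _ => ?_)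
    have hp' : p.Prime := (Nat.mem_primesBelow.1 hp).2
    exact yt_ne S hp' j (yt_z_norm hp' x hη t)
  have hL : Continuous fun t : ℝ => LP S P x (1 / 2 + η + t * I) := by
    unfold LP
    refine continuous_finsetProd _ fun p hp => ?_
    have hp' : p.Prime := (Nat.mem_primesBelow.1 hp).2
    have h1 := hpc p hp'
    refine Continuous.inv₀ (continuous_finsetProd _ fun j _ => ?_) fun t => ?_
    · fun_prop
    · exact Finset.prod_ne_zero_iff.2 fun j _ => yt_ne S hp' j (yt_z_norm hp' x hη t)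
  unfold Y2
  exact (hL.norm.log fun t => norm_ne_zero_iff.2 (hne t)).sub hX

theorem ytwo_pr (S : Sys m) {α β : ℝ} (hαβ : α ≤ β) : ∃ C : ℝ, 0 ≤ C ∧ ∀ (P : ℕ) (η : ℝ), 0 ≤ η →
    ∃ Q₀ : ℕ, ∀ Q : ℕ, Q₀ ≤ Q →
      ∑ x ∈ pairs S.N Q, ∫ t in α..β, Y2 S P η x t ^ 2 ≤ C * Q ^ 2 := by
  set H : ℝ := ∑' z : Nat.Primes × ℕ,
    ‖∑ j, S.α z.1 j ^ (z.2 + 2)‖ ^ 2 / (z.1 : ℝ) ^ (z.2 + 2) with hH
  have hH0 : 0 ≤ H := tsum_nonneg fun z => by positivity
  have hβα : 0 ≤ β - α := by linarith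
  refine ⟨(β - α) * (H + 1), by positivity, fun P η hη => ?_⟩
  obtain ⟨Q₀, hQ₀⟩ := orth_pr S.N (yt_b S P) (yt_b_nonneg S P) (yt_b_summable S P)
    (fun i => (i.1 : ℕ) ^ (i.2 + 2)) (fun _ => 1)
    (fun i => pow_pos (yt_prime i.1).pos _) (fun _ => one_pos)
    (fun i i' h => yt_inj i i' (by simpa using h)) one_pos
  refine ⟨Q₀, fun Q hQ => ?_⟩
  have h1 : ∀ t : ℝ, ∑ x ∈ pairs S.N Q, Y2 S P η x t ^ 2 ≤ (H + 1) * Q ^ 2 := by
    intro t
    have h2 := hQ₀ Q hQ (yt_β S P η t) (yt_β_norm S P hη t)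
    calc ∑ x ∈ pairs S.N Q, Y2 S P η x t ^ 2
        ≤ ∑ x ∈ pairs S.N Q, ‖∑' i : YtI P, yt_β S P η t i * ev x ((i.1 : ℕ) ^ (i.2 + 2)) *
            starRingEnd ℂ (ev x 1)‖ ^ 2 := by
          refine Finset.sum_le_sum fun x _ => ?_
          rw [yt_Y2 S P hη x t, ← sq_abs]
          exact pow_le_pow_left₀ (abs_nonneg _) (Complex.abs_re_le_norm _) 2
      _ ≤ ((∑' i, yt_b S P i ^ 2) + 1) * Q ^ 2 := h2
      _ ≤ (H + 1) * Q ^ 2 := by
          have := yt_b_sq S P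
          gcongr
  have hint : ∀ x : Ix, IntervalIntegrable (fun t => Y2 S P η x t ^ 2) volume α β := fun x =>
    ((yt_cont S P hη x).pow 2).intervalIntegrable _ _
  rw [← intervalIntegral.integral_finsetSum (fun x _ => hint x)]
  calc ∫ t in α..β, ∑ x ∈ pairs S.N Q, Y2 S P η x t ^ 2
      ≤ ∫ _t in α..β, (H + 1) * (Q : ℝ) ^ 2 := by
        refine intervalIntegral.integral_mono_on hαβ ?_ (by simp) fun t _ => h1 t
        exact (continuous_finsetSum _ fun x _ => (yt_cont S P hη x).pow 2).intervalIntegrable _ _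
    _ = (β - α) * (H + 1) * Q ^ 2 := by
        rw [intervalIntegral.integral_const, smul_eq_mul]
        ring

end Pool.Agent.G4
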